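import Pool.Agent.H25.BCE.Stmts

set_option autoImplicit false

namespace Pool.Agent.H25.BCE

open scoped ContDiff Topology

theorem f0_contDiff : ContDiff ℝ ∞ f0 := by
  unfold f0
  exact (expNegInvGlue.contDiff.comp (by fun_prop)).neg

theorem w_pos {s : ℝ} (h : |s| < 1 / 8) : 0 < dl - s ^ 2 := by
  unfold dl
  have h2 := abs_lt.1 h
  nlinarith

theorem f0_hasDerivAt {s : ℝ} (h : |s| < 1 / 8) :
    HasDerivAt f0 (2 * s * (dl - s ^ 2)⁻¹ ^ 2 * Real.exp (-(dl - s ^ 2)⁻¹)) s := by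
  have hw := w_pos h
  have hev : f0 =ᶠ[𝓝 s] fun u => -Real.exp (-(dl - u ^ 2)⁻¹) := by
    have ho : IsOpen {u : ℝ | |u| < 1 / 8} := isOpen_lt continuous_abs continuous_const
    filter_upwards [ho.mem_nhds h] with u hu
    have hu' := w_pos hu
    unfold f0 expNegInvGlue
    rw [if_neg (by linarith)]
  have h1 : HasDerivAt (fun u : ℝ => dl - u ^ 2) (-(2 * s)) s := by
    have := ((hasDerivAt_id s).pow 2).const_sub dl
    simpa using this
  have h2 := (h1.inv hw.ne').neg.exp.neg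
  refine (h2.congr_of_eventuallyEq hev).congr_deriv ?_
  simp only [Pi.neg_apply, Pi.inv_apply]
  generalize hwg : dl - s ^ 2 = w at hw
  generalize Real.exp (-w⁻¹) = E
  have hw' : w ≠ 0 := hw.ne'
  field_simp

/-- the sign function -/
noncomputable def NN (s : ℝ) : ℝ := (dl - s ^ 2) ^ 2 + 4 * s ^ 2 * (dl - s ^ 2) - 2 * s ^ 2

theorem f0_deriv {s : ℝ} (h : |s| < 1 / 8) :
    deriv f0 s = 2 * s * (dl - s ^ 2)⁻¹ ^ 2 * Real.exp (-(dl - s ^ 2)⁻¹) :=
  (f0_hasDerivAt h).deriv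

theorem f0_deriv2 {s : ℝ} (h : |s| < 1 / 8) :
    deriv (deriv f0) s = 2 * Real.exp (-(dl - s ^ 2)⁻¹) * (dl - s ^ 2)⁻¹ ^ 4 * NN s := by
  have hw := w_pos h
  have hev : deriv f0 =ᶠ[𝓝 s]
      fun u => 2 * u * (dl - u ^ 2)⁻¹ ^ 2 * Real.exp (-(dl - u ^ 2)⁻¹) := by
    have ho : IsOpen {u : ℝ | |u| < 1 / 8} := isOpen_lt continuous_abs continuous_const
    filter_upwards [ho.mem_nhds h] with u hu
    exact f0_deriv hu
  have h1 : HasDerivAt (fun u : ℝ => dl - u ^ 2) (-(2 * s)) s := by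
    have := ((hasDerivAt_id s).pow 2).const_sub dl
    simpa using this
  have h2 := h1.inv hw.ne'
  have h3 := ((((hasDerivAt_id s).const_mul 2).mul (h2.pow 2)).mul h2.neg.exp)
  have h4 := (h3.congr_of_eventuallyEq (f₁ := deriv f0) (by
    filter_upwards [hev] with u hu
    rw [hu]
    simp)).deriv
  rw [h4]
  unfold NN
  simp only [id, Pi.inv_apply, Pi.neg_apply, Pi.mul_apply, Pi.pow_apply,
    show (2 - 1 : ℕ) = 1 from rfl, pow_one]
  clear h4 h3 h2 h1 hev
  generalize hwg : dl - s ^ 2 = w at hw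
  generalize Real.exp (-w⁻¹) = E
  have hw' : w ≠ 0 := hw.ne'
  field_simp
  push_cast
  ring

theorem NN_eq (s : ℝ) : NN s = 1 / 4096 - 63 / 32 * s ^ 2 - 3 * (s ^ 2) ^ 2 := by
  unfold NN dl; ring

theorem NN_anti {s t : ℝ} (hs : 0 ≤ s) (hst : s < t) : NN t < NN s := by
  rw [NN_eq, NN_eq]
  have h1 : s ^ 2 < t ^ 2 := by nlinarith
  have h2 : 0 ≤ s ^ 2 := by positivity
  nlinarith

theorem f0_nonpos (s : ℝ) : f0 s ≤ 0 := by
  unfold f0
  have := expNegInvGlue.nonneg (dl - s ^ 2)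
  linarith

theorem f0_zero {s : ℝ} (h : 1 / 8 ≤ |s|) : f0 s = 0 := by
  unfold f0
  rw [expNegInvGlue.zero_of_nonpos, neg_zero]
  unfold dl
  have : (1 / 8) ^ 2 ≤ |s| ^ 2 := by gcongr
  rw [sq_abs] at this
  linarith

theorem f0_deriv_zero {s : ℝ} (h : 1 / 8 ≤ |s|) : deriv f0 s = 0 := by
  have : IsLocalMax f0 s := by
    unfold IsLocalMax IsMaxFilter
    rw [f0_zero h]
    exact Filter.Eventually.of_forall f0_nonpos
  exact this.deriv_eq_zero

theorem FU1_thm : FU1Stmt := by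
  have hcont : Continuous NN := by unfold NN; fun_prop
  have hs1 : 0 < NN s1 := by rw [NN_eq]; unfold s1; norm_num
  have h8 : NN (1 / 8) < 0 := by rw [NN_eq]; norm_num
  obtain ⟨st, hst, hN⟩ : ∃ st ∈ Set.Icc s1 (1 / 8), NN st = 0 := by
    have h := intermediate_value_Icc' (show s1 ≤ 1 / 8 by unfold s1; norm_num) hcont.continuousOn
    have h0 : (0 : ℝ) ∈ Set.Icc (NN (1 / 8)) (NN s1) := ⟨h8.le, hs1.le⟩
    obtain ⟨st, h1, h2⟩ := h h0
    exact ⟨st, h1, h2⟩
  have hst1 : s1 < st := by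
    rcases hst.1.lt_or_eq with h | h
    · exact h
    · rw [← h] at hN; linarith
  have hst2 : st < 1 / 8 := by
    rcases hst.2.lt_or_eq with h | h
    · exact h
    · rw [h] at hN; linarith
  have hs10 : 0 < s1 := by unfold s1; norm_num
  have hst0 : 0 < st := hs10.trans hst1
  have hdc : Continuous (deriv f0) := (f0_contDiff.continuous_deriv (by simp))
  refine ⟨st, hst1, hst2, ?_, ?_, ?_, ?_, ?_⟩
  · refine strictMonoOn_of_deriv_pos (convex_Icc 0 st) hdc.continuousOn ?_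
    intro s hs
    rw [interior_Icc] at hs
    have hab : |s| < 1 / 8 := by rw [abs_of_pos hs.1]; linarith [hs.2]
    have hw := w_pos hab
    rw [f0_deriv2 hab]
    have : 0 < NN s := by
      have := NN_anti hs.1.le hs.2
      linarith
    positivity
  · refine strictAntiOn_of_deriv_neg (convex_Icc st (1 / 8)) hdc.continuousOn ?_
    intro s hs
    rw [interior_Icc] at hs
    have hs0 : 0 < s := hst0.trans hs.1
    have hab : |s| < 1 / 8 := by rw [abs_of_pos hs0]; exact hs.2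
    have hw := w_pos hab
    rw [f0_deriv2 hab]
    have h1 : NN s < 0 := by
      have := NN_anti hst0.le hs.1
      linarith
    have h2 : 0 < 2 * Real.exp (-(dl - s ^ 2)⁻¹) * (dl - s ^ 2)⁻¹ ^ 4 := by positivity
    exact mul_neg_of_pos_of_neg h2 h1
  · intro s hs0 hs8 hne
    have hab : |s| < 1 / 8 := by rw [abs_of_pos hs0]; exact hs8
    have hw := w_pos hab
    rw [f0_deriv2 hab]
    have h2 : 0 < 2 * Real.exp (-(dl - s ^ 2)⁻¹) * (dl - s ^ 2)⁻¹ ^ 4 := by positivity
    refine mul_ne_zero h2.ne' ?_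
    rcases lt_or_gt_of_ne hne with h | h
    · have := NN_anti hs0.le h
      linarith
    · have := NN_anti hst0.le h
      linarith
  · intro s hs
    by_cases h : |s| < 1 / 8
    · rcases hs with hs | hs
      · have hw := w_pos h
        rw [f0_deriv h]
        have h2 : 0 < (dl - s ^ 2)⁻¹ ^ 2 * Real.exp (-(dl - s ^ 2)⁻¹) := by positivity
        nlinarith
      · have := le_abs_self s
        linarith
    · push Not at h
      rw [f0_deriv_zero h]
  · have hab : |s1| < 1 / 8 := by rw [abs_of_pos hs10]; linarith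
    have hw := w_pos hab
    rw [f0_deriv hab]
    positivity

end Pool.Agent.H25.BCE
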