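import Pool.Agent.H25.BCE.FU1

set_option autoImplicit false

namespace Pool.Agent.H25.BCE

open scoped ContDiff Topology

theorem CCP_thm (hFU1 : FU1Stmt) : CCPStmt := by
  obtain ⟨st, _, _, _, _, _, _, h⟩ := hFU1
  have hc : 0 < cc := inv_pos.2 h
  refine ⟨hc, ?_⟩
  unfold Per
  linarith

theorem f0_ge (s : ℝ) : -1 ≤ f0 s := by
  unfold f0 expNegInvGlue
  split_ifs with h
  · norm_num
  · push Not at h
    have : Real.exp (-(dl - s ^ 2)⁻¹) ≤ 1 := by
      rw [Real.exp_le_one_iff]
      have : 0 < (dl - s ^ 2)⁻¹ := inv_pos.2 h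
      linarith
    linarith

/-- two shifts of a point which are both in the support of the profile coincide -/
theorem shift_unique (hP : 1 < Per) {s : ℝ} {j j' : ℤ} (h : f0 (s + j * Per) ≠ 0)
    (h' : f0 (s + j' * Per) ≠ 0) : j = j' := by
  have h1 : |s + j * Per| < 1 / 8 := by
    by_contra hc
    push Not at hc
    exact h (f0_zero hc)
  have h2 : |s + j' * Per| < 1 / 8 := by
    by_contra hc
    push Not at hc
    exact h' (f0_zero hc)
  by_contra hne
  have h3 : (1 : ℝ) ≤ |(j : ℝ) - j'| := by
    have : (1 : ℤ) ≤ |j - j'| := Int.one_le_abs (sub_ne_zero.2 hne)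
    exact_mod_cast this
  have h4 : |((j : ℝ) - j') * Per| < 1 / 4 := by
    have e : ((j : ℝ) - j') * Per = (s + j * Per) - (s + j' * Per) := by ring
    rw [e]
    calc |(s + j * Per) - (s + j' * Per)| ≤ |s + j * Per| + |s + j' * Per| := abs_sub _ _
      _ < 1 / 4 := by linarith
  rw [abs_mul, abs_of_pos (by linarith : (0 : ℝ) < Per)] at h4
  nlinarith

theorem ff_eq (hP : 1 < Per) {s : ℝ} (j : ℤ) (h : f0 (s + j * Per) ≠ 0) :
    ff s = cc * f0 (s + j * Per) := by
  unfold ff
  refine finsum_eq_single _ j ?_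
  intro j' hj'
  by_contra hne
  exact hj' (shift_unique hP (fun e => hne (by rw [e, mul_zero])) h)

theorem ff_zero {s : ℝ} (h : ∀ j : ℤ, f0 (s + j * Per) = 0) : ff s = 0 := by
  unfold ff
  have : (fun j : ℤ => cc * f0 (s + j * Per)) = fun _ => 0 := by
    funext j; rw [h j, mul_zero]
  rw [this, finsum_zero]

theorem ff_small (hP : 1 < Per) {s : ℝ} (h : |s| < Per / 2) : ff s = cc * f0 s := by
  by_cases h0 : f0 s = 0
  · rw [h0, mul_zero]
    apply ff_zero
    intro j
    by_cases hj : j = 0
    · rw [hj]; simpa using h0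
    · apply f0_zero
      have h3 : (1 : ℝ) ≤ |(j : ℝ)| := by
        have : (1 : ℤ) ≤ |j| := Int.one_le_abs hj
        exact_mod_cast this
      have h4 : |(j : ℝ) * Per| = |(j : ℝ)| * Per := by
        rw [abs_mul, abs_of_pos (by linarith : (0 : ℝ) < Per)]
      have h5 : |(j : ℝ) * Per| ≤ |s + j * Per| + |s| := by
        have : (j : ℝ) * Per = (s + j * Per) - s := by ring
        calc |(j : ℝ) * Per| = |(s + j * Per) - s| := by rw [← this]
          _ ≤ _ := abs_sub _ _
      nlinarith
  · have := ff_eq hP (s := s) 0 (by simpa using h0)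
    simpa using this

theorem ff_per (s : ℝ) : ff (s + Per) = ff s := by
  unfold ff
  have h := finsum_comp_equiv (Equiv.addRight (1 : ℤ)) (f := fun j : ℤ => cc * f0 (s + j * Per))
  rw [← h]
  congr 1
  funext j
  simp only [Equiv.coe_addRight]
  congr 2
  push_cast
  ring

theorem ff_per_int (s : ℝ) (j : ℤ) : ff (s + j * Per) = ff s := by
  have hup : ∀ (n : ℕ) (s : ℝ), ff (s + n * Per) = ff s := by
    intro n
    induction n with
    | zero => intro s; simp
    | succ n ih =>
      intro s
      have : s + ((n + 1 : ℕ) : ℝ) * Per = (s + n * Per) + Per := by push_cast; ring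
      rw [this, ff_per, ih]
  rcases Int.eq_nat_or_neg j with ⟨n, rfl | rfl⟩
  · simpa using hup n s
  · have := hup n (s + ((-(n : ℤ) : ℤ) : ℝ) * Per)
    rw [← this]
    congr 1
    push_cast
    ring

theorem exists_red (hP : 1 < Per) (s : ℝ) : ∃ j : ℤ, |s + j * Per| ≤ Per / 2 := by
  have hP0 : 0 < Per := by linarith
  refine ⟨-round (s / Per), ?_⟩
  have h := abs_sub_round (s / Per)
  have e : s + ((-round (s / Per) : ℤ) : ℝ) * Per = (s / Per - round (s / Per)) * Per := by
    push_cast
    field_simp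
    ring
  rw [e, abs_mul, abs_of_pos hP0]
  nlinarith

theorem ff_zero_of (hP : 1 < Per) {s : ℝ} {j : ℤ} (h : |s + j * Per| ≤ Per / 2)
    (h8 : 1 / 8 ≤ |s + j * Per|) : ff s = 0 := by
  apply ff_zero
  intro i
  apply f0_zero
  by_cases hij : i = j
  · rw [hij]; exact h8
  · have h3 : (1 : ℝ) ≤ |(i : ℝ) - j| := by
      have : (1 : ℤ) ≤ |i - j| := Int.one_le_abs (sub_ne_zero.2 hij)
      exact_mod_cast this
    have h5 : |((i : ℝ) - j) * Per| ≤ |s + i * Per| + |s + j * Per| := by
      have : ((i : ℝ) - j) * Per = (s + i * Per) - (s + j * Per) := by ring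
      rw [this]
      exact abs_sub _ _
    rw [abs_mul, abs_of_pos (by linarith : (0 : ℝ) < Per)] at h5
    nlinarith

theorem ff_bounds (hc : 0 < cc) (hP : 1 < Per) (s : ℝ) : -cc ≤ ff s ∧ ff s ≤ 0 := by
  by_cases h : ∀ j : ℤ, f0 (s + j * Per) = 0
  · rw [ff_zero h]
    constructor
    · linarith
    · exact le_refl _
  · push Not at h
    obtain ⟨j, hj⟩ := h
    rw [ff_eq hP j hj]
    have h1 := f0_ge (s + j * Per)
    have h2 := f0_nonpos (s + j * Per)
    constructor <;> nlinarith

theorem FU2_thm (hCCP : CCPStmt) : FU2Stmt := by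
  obtain ⟨hc, hP⟩ := hCCP
  refine ⟨?_, ff_per, fun s h => ff_small hP h, ff_bounds hc hP⟩
  rw [contDiff_iff_contDiffAt]
  intro s
  obtain ⟨j, hj⟩ := exists_red hP s
  by_cases h : |s + j * Per| < Per / 2
  · have hev : ff =ᶠ[𝓝 s] fun u => cc * f0 (u + j * Per) := by
      have ho : IsOpen {u : ℝ | |u + j * Per| < Per / 2} :=
        isOpen_lt (by fun_prop) continuous_const
      filter_upwards [ho.mem_nhds h] with u hu
      rw [← ff_small hP hu, ff_per_int]
    refine ContDiffAt.congr_of_eventuallyEq ?_ hev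
    exact (contDiff_const.mul (f0_contDiff.comp (by fun_prop))).contDiffAt
  · have h1 : |s + j * Per| = Per / 2 := le_antisymm hj (not_lt.1 h)
    have hev : ff =ᶠ[𝓝 s] fun _ => (0 : ℝ) := by
      have ho : IsOpen {u : ℝ | |u - s| < 1 / 8} :=
        isOpen_lt (by fun_prop) continuous_const
      have hs : s ∈ {u : ℝ | |u - s| < 1 / 8} := by simp
      filter_upwards [ho.mem_nhds hs] with u hu
      have hu : |u - s| < 1 / 8 := hu
      apply ff_zero
      intro i
      apply f0_zero
      -- distance of s to all lattice points is at least Per/2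
      have h6 : Per / 2 ≤ |s + i * Per| := by
        by_cases hij : i = j
        · rw [hij]; exact h1.ge
        · have h3 : (1 : ℝ) ≤ |(i : ℝ) - j| := by
            have : (1 : ℤ) ≤ |i - j| := Int.one_le_abs (sub_ne_zero.2 hij)
            exact_mod_cast this
          have h5 : |((i : ℝ) - j) * Per| ≤ |s + i * Per| + |s + j * Per| := by
            have : ((i : ℝ) - j) * Per = (s + i * Per) - (s + j * Per) := by ring
            rw [this]
            exact abs_sub _ _
          rw [abs_mul, abs_of_pos (by linarith : (0 : ℝ) < Per)] at h5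
          nlinarith
      have h7 : |s + i * Per| ≤ |u + i * Per| + |u - s| := by
        have : s + i * Per = (u + i * Per) - (u - s) := by ring
        calc |s + i * Per| = |(u + i * Per) - (u - s)| := by rw [← this]
          _ ≤ _ := abs_sub _ _
      linarith
    exact contDiffAt_const.congr_of_eventuallyEq hev

theorem FUN_thm (hFU1 : FU1Stmt) (hFU2 : FU2Stmt) (hCCP : CCPStmt) : FUNStmt := by
  obtain ⟨hc, hP⟩ := hCCP
  obtain ⟨hsm, hper, hsmall, hbd⟩ := hFU2
  obtain ⟨st, hst1, hst8, hmono, hanti, hne, hle, hpos⟩ := hFU1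
  have hs10 : 0 < s1 := by unfold s1; norm_num
  have hdc : Continuous (deriv f0) := (f0_contDiff.continuous_deriv (by simp))
  -- derivative of ff
  have hev : ∀ s : ℝ, ∀ j : ℤ, |s + j * Per| < Per / 2 →
      ff =ᶠ[𝓝 s] fun u => cc * f0 (u + j * Per) := by
    intro s j h
    have ho : IsOpen {u : ℝ | |u + j * Per| < Per / 2} :=
      isOpen_lt (by fun_prop) continuous_const
    filter_upwards [ho.mem_nhds h] with u hu
    rw [← ff_small hP hu, ff_per_int]
  have hd : ∀ s : ℝ, ∀ j : ℤ, |s + j * Per| < Per / 2 →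
      deriv ff s = cc * deriv f0 (s + j * Per) := by
    intro s j h
    rw [(hev s j h).deriv_eq, deriv_const_mul, deriv_comp_add_const]
    exact ((f0_contDiff.comp (by fun_prop : ContDiff ℝ ∞ fun u : ℝ => u + j * Per)).differentiable
      (by simp)) s
  have hd0 : ∀ s : ℝ, |s| < Per / 2 → deriv ff s = cc * deriv f0 s := by
    intro s h
    have := hd s 0 (by simpa using h)
    simpa using this
  have hdd0 : ∀ s : ℝ, |s| < Per / 2 → deriv (deriv ff) s = cc * deriv (deriv f0) s := by
    intro s h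
    have ho : IsOpen {u : ℝ | |u| < Per / 2} := isOpen_lt (by fun_prop) continuous_const
    have hev2 : deriv ff =ᶠ[𝓝 s] fun u => cc * deriv f0 u := by
      filter_upwards [ho.mem_nhds h] with u hu using hd0 u hu
    rw [hev2.deriv_eq, deriv_const_mul]
    have h2 : ContDiff ℝ 1 (deriv f0) := by
      have : ContDiff ℝ (1 + 1) f0 := f0_contDiff.of_le (by norm_cast)
      exact (contDiff_succ_iff_deriv.1 this).2.2
    exact (h2.differentiable (by simp)) s
  have hcpos : cc * deriv f0 s1 = 1 := by
    unfold cc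
    exact inv_mul_cancel₀ hpos.ne'
  -- s2
  have h8 : deriv f0 (1 / 8) = 0 := f0_deriv_zero (by rw [abs_of_pos (by norm_num)])
  obtain ⟨s2, hs2, hs2v⟩ : ∃ s2 ∈ Set.Icc st (1 / 8), deriv f0 s2 = deriv f0 s1 := by
    have h := intermediate_value_Icc' hst8.le hdc.continuousOn
    have h0 : deriv f0 s1 ∈ Set.Icc (deriv f0 (1 / 8)) (deriv f0 st) := by
      rw [h8]
      refine ⟨hpos.le, ?_⟩
      exact (hmono ⟨hs10.le, hst1.le⟩ ⟨(hs10.trans hst1).le, le_refl _⟩ hst1).le
    obtain ⟨s2, h1, h2⟩ := h h0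
    exact ⟨s2, h1, h2⟩
  have hmax : deriv f0 s1 < deriv f0 st :=
    hmono ⟨hs10.le, hst1.le⟩ ⟨(hs10.trans hst1).le, le_refl _⟩ hst1
  have hst2 : st < s2 := by
    rcases hs2.1.lt_or_eq with h | h
    · exact h
    · rw [← h] at hs2v; linarith
  have hs28 : s2 < 1 / 8 := by
    rcases hs2.2.lt_or_eq with h | h
    · exact h
    · rw [h, h8] at hs2v; linarith
  have hs20 : 0 < s2 := by linarith
  have hs1P : |s1| < Per / 2 := by
    rw [abs_of_pos hs10]; unfold s1; linarith
  have hs2P : |s2| < Per / 2 := by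
    rw [abs_of_pos hs20]; linarith
  refine ⟨hsm, hper, hbd, s2, hst1.trans hst2, hs28, ?_, ?_, ?_, ?_, ?_, ?_⟩
  · rw [hd0 s1 hs1P]; exact hcpos
  · rw [hd0 s2 hs2P, hs2v]; exact hcpos
  · rw [hdd0 s1 hs1P]
    exact mul_ne_zero hc.ne' (hne s1 hs10 (by linarith) hst1.ne)
  · rw [hdd0 s2 hs2P]
    exact mul_ne_zero hc.ne' (hne s2 hs20 hs28 hst2.ne')
  · intro s hs
    obtain ⟨j, hj⟩ := exists_red hP s
    by_cases h : |s + j * Per| < Per / 2
    · rw [hd s j h] at hs
      set u := s + j * Per with hu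
      have hu1 : deriv f0 u = deriv f0 s1 := by
        have : cc * deriv f0 u = cc * deriv f0 s1 := by rw [hs, hcpos]
        exact mul_left_cancel₀ hc.ne' this
      have hu0 : 0 < u ∧ u < 1 / 8 := by
        constructor
        · by_contra hcon
          push Not at hcon
          have := hle u (Or.inl hcon)
          linarith
        · by_contra hcon
          push Not at hcon
          have := hle u (Or.inr hcon)
          linarith
      refine ⟨-j, ?_⟩
      rcases le_total u st with h1 | h1
      · left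
        have : u = s1 := hmono.injOn ⟨hu0.1.le, h1⟩ ⟨hs10.le, hst1.le⟩ hu1
        push_cast
        linarith
      · right
        have : u = s2 := hanti.injOn ⟨h1, hu0.2.le⟩ ⟨hst2.le, hs28.le⟩ (by rw [hu1, hs2v])
        push_cast
        linarith
    · exfalso
      have h1 : |s + j * Per| = Per / 2 := le_antisymm hj (not_lt.1 h)
      have hff0 : ff s = 0 := ff_zero_of hP hj (by rw [h1]; linarith)
      have hmaxx : IsLocalMax ff s := by
        unfold IsLocalMax IsMaxFilter
        rw [hff0]
        exact Filter.Eventually.of_forall fun u => (hbd u).2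
      rw [hmaxx.deriv_eq_zero] at hs
      norm_num at hs
  · have hgt : ∀ s ∈ Set.Ioo s1 s2, 1 < deriv ff s := by
      intro s hs
      have hs0 : 0 < s := hs10.trans hs.1
      have hsP : |s| < Per / 2 := by rw [abs_of_pos hs0]; linarith [hs.2]
      rw [hd0 s hsP, ← hcpos]
      refine mul_lt_mul_of_pos_left ?_ hc
      rcases le_total s st with h1 | h1
      · exact hmono ⟨hs10.le, hst1.le⟩ ⟨hs0.le, h1⟩ hs.1
      · rw [← hs2v]
        exact hanti ⟨h1, by linarith [hs.2]⟩ ⟨hst2.le, hs28.le⟩ hs.2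
    have hmon : StrictMonoOn (fun s => ff s - s) (Set.Icc s1 s2) := by
      refine strictMonoOn_of_deriv_pos (convex_Icc s1 s2)
        ((hsm.continuous.sub continuous_id).continuousOn) ?_
      intro s hs
      rw [interior_Icc] at hs
      have h1 : HasDerivAt ff (deriv ff s) s := (hsm.differentiable (by simp) s).hasDerivAt
      have h2 := (h1.sub (hasDerivAt_id s)).deriv
      have h3 : deriv (fun s => ff s - s) s = deriv ff s - 1 := h2
      rw [h3]
      linarith [hgt s hs]
    exact hmon ⟨le_refl _, (hst1.trans hst2).le⟩ ⟨(hst1.trans hst2).le, le_refl _⟩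
      (hst1.trans hst2)

end Pool.Agent.H25.BCE
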