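import Pool.Agent.H25.BCE.Stmts

set_option autoImplicit false

namespace Pool.Agent.H25.BCE

open scoped ContDiff Topology
open Pool.Agent.H73 (P V ex ey pb bk solA solG mu0 Gam lin solA_zero solA_one solA_two)

theorem SYM_thm : SYMStmt := by
  rintro g ⟨l, j, a, b, ha, hb, rfl⟩ v w
  rw [dk_linear, dk_linear]
  unfold om
  refine Finset.sum_congr rfl fun i _ => ?_
  rw [LL_fst, LL_fst, LL_snd, LL_snd]
  have h : Real.exp (mu0 * l * wt i) * Real.exp (-(mu0 * l * wt i)) = 1 := by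
    rw [← Real.exp_add]; simp
  linear_combination (v.1 i * w.2 i - v.2 i * w.1 i) * h

theorem dk_fst2 (l j : ℤ) (a b : ℝ × ℝ) (x : P 3) : (dk l j a b x).1 2 = x.1 2 + l := by
  rw [dk_apply]
  simp only [Prod.fst_add, Pi.add_apply, LL_fst]
  simp [trn, wt]
  ring

theorem dk_snd2 (l j : ℤ) (a b : ℝ × ℝ) (x : P 3) : (dk l j a b x).2 2 = x.2 2 + j * Per := by
  rw [dk_apply]
  simp only [Prod.snd_add, Pi.add_apply, LL_snd]
  simp [trn, wt]
  ring

theorem dk_fst0 (l j : ℤ) (a b : ℝ × ℝ) (x : P 3) :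
    (dk l j a b x).1 0 = Real.exp (mu0 * l) * x.1 0 + a.1 := by
  rw [dk_apply]
  simp only [Prod.fst_add, Pi.add_apply, LL_fst]
  simp [trn, wt]
  ring

theorem dk_fst1 (l j : ℤ) (a b : ℝ × ℝ) (x : P 3) :
    (dk l j a b x).1 1 = Real.exp (-(mu0 * l)) * x.1 1 + a.2 := by
  rw [dk_apply]
  simp only [Prod.fst_add, Pi.add_apply, LL_fst]
  simp [trn, wt]
  ring

theorem dk_snd0 (l j : ℤ) (a b : ℝ × ℝ) (x : P 3) :
    (dk l j a b x).2 0 = Real.exp (-(mu0 * l)) * x.2 0 + b.1 := by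
  rw [dk_apply]
  simp only [Prod.snd_add, Pi.add_apply, LL_snd]
  simp [trn, wt]
  ring

theorem dk_snd1 (l j : ℤ) (a b : ℝ × ℝ) (x : P 3) :
    (dk l j a b x).2 1 = Real.exp (mu0 * l) * x.2 1 + b.2 := by
  rw [dk_apply]
  simp only [Prod.snd_add, Pi.add_apply, LL_snd]
  simp [trn, wt]
  ring

theorem P3_ext {x y : P 3} (h0 : x.1 0 = y.1 0) (h1 : x.1 1 = y.1 1) (h2 : x.1 2 = y.1 2)
    (h3 : x.2 0 = y.2 0) (h4 : x.2 1 = y.2 1) (h5 : x.2 2 = y.2 2) : x = y := by
  refine Prod.ext ?_ ?_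
  · funext i; fin_cases i
    · exact h0
    · exact h1
    · exact h2
  · funext i; fin_cases i
    · exact h3
    · exact h4
    · exact h5

theorem Per_ne {h : 1 < Per} : Per ≠ 0 := by linarith

theorem FRE_thm (hCCP : CCPStmt) : FREStmt := by
  rintro g ⟨l, j, a, b, ha, hb, rfl⟩ x hx
  have h2 := congrArg (fun y : P 3 => y.1 2) hx
  simp only [dk_fst2] at h2
  have hl : l = 0 := by
    have : (l : ℝ) = 0 := by linarith
    exact_mod_cast this
  subst hl
  have h5 := congrArg (fun y : P 3 => y.2 2) hx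
  simp only [dk_snd2] at h5
  have hj : j = 0 := by
    have h6 : (j : ℝ) * Per = 0 := by linarith
    rcases mul_eq_zero.1 h6 with h | h
    · exact_mod_cast h
    · have := hCCP.2
      linarith
  subst hj
  have h0 := congrArg (fun y : P 3 => y.1 0) hx
  have h1 := congrArg (fun y : P 3 => y.1 1) hx
  have h3 := congrArg (fun y : P 3 => y.2 0) hx
  have h4 := congrArg (fun y : P 3 => y.2 1) hx
  simp only [dk_fst0, dk_fst1, dk_snd0, dk_snd1, Int.cast_zero, mul_zero, neg_zero,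
    Real.exp_zero, one_mul] at h0 h1 h3 h4
  have ea : a = 0 := Prod.ext (by simpa using h0) (by simpa using h1)
  have eb : b = 0 := Prod.ext (by simpa using h3) (by simpa using h4)
  rw [ea, eb]
  exact dk_one

theorem DIN_thm : DINStmt := by
  intro i l a x
  have key : Real.exp (-(mu0 * l)) * Real.exp (mu0 * l) = 1 := by
    rw [← Real.exp_add]; simp
  have h0 := dk_fst0 l 0 a 0 x
  have h3 : (dk l 0 a 0 x).2 0 = Real.exp (-(mu0 * l)) * x.2 0 := by rw [dk_snd0]; simp
  have h4 : (dk l 0 a 0 x).2 1 = Real.exp (mu0 * l) * x.2 1 := by rw [dk_snd1]; simp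
  have h5 : (dk l 0 a 0 x).2 2 = x.2 2 := by rw [dk_snd2]; simp
  have h2 := dk_fst2 l 0 a 0 x
  fin_cases i
  · change solA mu0 0 0 _ = solA mu0 0 0 _
    rw [solA_zero, solA_zero]
    have h3' : (dk l 0 a 0 x : P (0 + 3)).2 0 = Real.exp (-(mu0 * l)) * x.2 0 := h3
    have h4' : (dk l 0 a 0 x : P (0 + 3)).2 1 = Real.exp (mu0 * l) * x.2 1 := h4
    rw [h3', h4']
    linear_combination (x.2 0 * x.2 1) * key
  · change solA mu0 0 1 _ = solA mu0 0 1 _
    rw [solA_one, solA_one]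
    have h3' : (dk l 0 a 0 x : P (0 + 3)).2 0 = Real.exp (-(mu0 * l)) * x.2 0 := h3
    have h4' : (dk l 0 a 0 x : P (0 + 3)).2 1 = Real.exp (mu0 * l) * x.2 1 := h4
    rw [h3', h4']
    unfold Pool.Agent.H73.flat
    have e : Real.exp (-(mu0 * l)) * x.2 0 * (Real.exp (mu0 * l) * x.2 1) = x.2 0 * x.2 1 := by
      linear_combination (x.2 0 * x.2 1) * key
    rw [e]
    by_cases hx : x.2 0 = 0
    · simp [hx]
    · rw [Real.log_mul (Real.exp_pos _).ne' hx, Real.log_exp]
      have hmu : mu0 ≠ 0 := Pool.Agent.H73.mu0_pos.ne'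
      have e2 : 2 * Real.pi / mu0 * (-(mu0 * l) + Real.log (x.2 0)) =
          2 * Real.pi / mu0 * Real.log (x.2 0) - (l : ℝ) * (2 * Real.pi) := by
        field_simp
        ring
      rw [e2, Real.sin_sub_int_mul_two_pi]
  · change solA mu0 0 2 _ = solA mu0 0 2 _
    rw [solA_two, solA_two]
    have h3' : (dk l 0 a 0 x : P (0 + 3)).2 0 = Real.exp (-(mu0 * l)) * x.2 0 := h3
    have h4' : (dk l 0 a 0 x : P (0 + 3)).2 1 = Real.exp (mu0 * l) * x.2 1 := h4
    have h5' : (dk l 0 a 0 x : P (0 + 3)).2 2 = x.2 2 := h5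
    have h2' : (dk l 0 a 0 x : P (0 + 3)).1 2 = x.1 2 + l := h2
    rw [h3', h4', h5', h2']
    have e1 : Real.exp (2 * mu0 * (x.1 2 + l)) * (Real.exp (-(mu0 * l)) * x.2 0) ^ 2 =
        Real.exp (2 * mu0 * x.1 2) * x.2 0 ^ 2 := by
      rw [mul_pow, ← Real.exp_nat_mul, ← mul_assoc, ← Real.exp_add]
      congr 2
      push_cast
      ring
    have e2 : Real.exp (-(2 * mu0 * (x.1 2 + l))) * (Real.exp (mu0 * l) * x.2 1) ^ 2 =
        Real.exp (-(2 * mu0 * x.1 2)) * x.2 1 ^ 2 := by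
      rw [mul_pow, ← Real.exp_nat_mul, ← mul_assoc, ← Real.exp_add]
      congr 2
      push_cast
      ring
    rw [e1, e2]

/-- reindexing of the shifts by a deck transformation -/
noncomputable def rq (l j : ℤ) (b : Gam) : (ℤ × Gam) ≃ (ℤ × Gam) where
  toFun r := (j + r.1, ⟨sc l (b.1 + r.2.1), sc_mem l (Gam.add_mem b.2 r.2.2)⟩)
  invFun r := (r.1 - j, ⟨sc (-l) r.2.1 - b.1, Gam.sub_mem (sc_mem (-l) r.2.2) b.2⟩)
  left_inv r := by
    refine Prod.ext ?_ ?_
    · simp
    · apply Subtype.ext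
      simp only
      rw [sc_sc]
      simp [sc_zero]
  right_inv r := by
    refine Prod.ext ?_ ?_
    · simp
    · apply Subtype.ext
      simp only
      rw [add_sub_cancel, sc_sc]
      simp [sc_zero]

theorem rq_eq (l j : ℤ) (a : ℝ × ℝ) (b : Gam) (x : P 3) (r : ℤ × Gam) :
    dk l j a b x + sh r = dk l 0 a 0 (x + sh (rq l j b r)) := by
  apply P3_ext
  · simp only [Prod.fst_add, Pi.add_apply, dk_fst0]
    simp [sh]
  · simp only [Prod.fst_add, Pi.add_apply, dk_fst1]
    simp [sh]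
  · simp only [Prod.fst_add, Pi.add_apply, dk_fst2]
    simp [sh]
  · simp only [Prod.snd_add, Pi.add_apply, dk_snd0]
    have e : Real.exp (-(mu0 * l)) * Real.exp (mu0 * l) = 1 := by
      rw [← Real.exp_add]; simp
    simp [sh, rq, sc]
    linear_combination (-((b : ℝ × ℝ).1 + (r.2 : ℝ × ℝ).1)) * e
  · simp only [Prod.snd_add, Pi.add_apply, dk_snd1]
    have e : Real.exp (mu0 * l) * Real.exp (-(mu0 * l)) = 1 := by
      rw [← Real.exp_add]; simp
    simp [sh, rq, sc]
    linear_combination (-((b : ℝ × ℝ).2 + (r.2 : ℝ × ℝ).2)) * e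
  · simp only [Prod.snd_add, Pi.add_apply, dk_snd2]
    simp [sh, rq]
    ring

theorem INV_thm : INVStmt := by
  rintro f hf g ⟨l, j, a, b, ha, hb, rfl⟩ x
  have h := finsum_comp_equiv (rq l j ⟨b, hb⟩) (f := fun r => f (x + sh r))
  rw [← h]
  congr 1
  funext r
  have := rq_eq l j a ⟨b, hb⟩ x r
  simp only at this
  rw [this, hf]

theorem BBI_thm (hDIN : DINStmt) : BBIStmt := by
  have key : ∀ g ∈ G0, ∀ x : P 3, g x ∈ BB → x ∈ BB := by
    rintro g ⟨l, j, a, b, ha, hb, rfl⟩ x ⟨r, hr⟩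
    have := rq_eq l j a ⟨b, hb⟩ x r
    simp only at this
    rw [this] at hr
    unfold En at hr
    rw [hDIN] at hr
    exact ⟨_, hr⟩
  intro g hg x
  refine ⟨key g hg x, fun hx => ?_⟩
  apply key g⁻¹ (G0.inv_mem hg)
  have : g⁻¹ (g x) = x := by
    have h : (g⁻¹ * g) x = x := by simp
    exact h
  rw [this]
  exact hx

theorem GEQ_thm : GEQStmt := by
  rintro g ⟨l, j, a, b, ha, hb, rfl⟩ F F' x hF hF'
  have hd : HasFDerivAt (fun y : P 3 => dk l j a b y)
      (LinearMap.toContinuousLinearMap (LL l).toLinearMap) x := by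
    have h1 : (fun y : P 3 => dk l j a b y) =
        fun y => trn l j a b + LinearMap.toContinuousLinearMap (LL l).toLinearMap y := by
      funext y; rfl
    rw [h1]
    exact (LinearMap.toContinuousLinearMap (LL l).toLinearMap).hasFDerivAt.const_add _
  have hc : ∀ (G : P 3 → ℝ), ContDiff ℝ ∞ G → ∀ v : P 3,
      fderiv ℝ (fun y => G (dk l j a b y)) x v = fderiv ℝ G (dk l j a b x) (LL l v) := by
    intro G hG v
    have h2 : HasFDerivAt G (fderiv ℝ G (dk l j a b x)) (dk l j a b x) :=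
      (hG.differentiable (by simp) _).hasFDerivAt
    have h3 := h2.comp x hd
    have h4 : (fun y => G (dk l j a b y)) = G ∘ fun y => dk l j a b y := rfl
    rw [h4, h3.fderiv]
    rfl
  unfold pb bk
  refine Finset.sum_congr rfl fun i _ => ?_
  have e1 : LL l (ex i) = Real.exp (mu0 * l * wt i) • (ex i : P 3) := by
    refine Prod.ext ?_ ?_
    · funext k
      rw [LL_fst]
      by_cases hk : k = i
      · subst hk; simp [ex]
      · simp [ex, Pi.single_apply, hk]
    · funext k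
      rw [LL_snd]
      simp [ex]
  have e2 : LL l (ey i) = Real.exp (-(mu0 * l * wt i)) • (ey i : P 3) := by
    refine Prod.ext ?_ ?_
    · funext k
      rw [LL_fst]
      simp [ey]
    · funext k
      rw [LL_snd]
      by_cases hk : k = i
      · subst hk; simp [ey]
      · simp [ey, Pi.single_apply, hk]
  rw [hc F hF, hc F hF, hc F' hF', hc F' hF', e1, e2, map_smul, map_smul, map_smul, map_smul]
  simp only [smul_eq_mul]
  have h : Real.exp (mu0 * l * wt i) * Real.exp (-(mu0 * l * wt i)) = 1 := by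
    rw [← Real.exp_add]; simp
  linear_combination (fderiv ℝ F (dk l j a b x) (ex i) * fderiv ℝ F' (dk l j a b x) (ey i) -
    fderiv ℝ F (dk l j a b x) (ey i) * fderiv ℝ F' (dk l j a b x) (ex i)) * h

end Pool.Agent.H25.BCE
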