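import Pool.Agent.H25.BCE.GRP

set_option autoImplicit false

namespace Pool.Agent.H25.BCE

open scoped ContDiff Topology
open Pool.Agent.H73 (P V ex ey pb bk solA solG mu0 Gam lin mu0_pos)

/-- the velocity of the curves `orb` -/
def vel (m : ℕ) : P 3 := (![0, 0, (m : ℝ)], 0)

theorem orb_hasDerivAt (m : ℕ) (a : ℝ × ℝ) (z s t : ℝ) :
    HasDerivAt (orb m a z s) (vel m) t := by
  have h1 : HasDerivAt (fun t : ℝ => (![a.1 / (1 - Real.exp (mu0 * m)),
      a.2 / (1 - Real.exp (-(mu0 * m))), z + m * t] : Fin 3 → ℝ)) ![0, 0, (m : ℝ)] t := by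
    rw [hasDerivAt_pi]
    intro i
    fin_cases i
    · exact hasDerivAt_const _ _
    · exact hasDerivAt_const _ _
    · have := ((hasDerivAt_id t).const_mul (m : ℝ)).const_add z
      simpa using this
  have h2 : HasDerivAt (fun _ : ℝ => (![0, 0, s] : Fin 3 → ℝ)) 0 t := hasDerivAt_const _ _
  exact h1.prodMk h2

theorem om_vel (m : ℕ) (w : P 3) : om (vel m) w = m * w.2 2 := by
  unfold om vel
  rw [Fin.sum_univ_three]
  simp

theorem orb_snd0 (m : ℕ) (a : ℝ × ℝ) (z s t : ℝ) : (orb m a z s t).2 0 = 0 := by simp [orb]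
theorem orb_snd1 (m : ℕ) (a : ℝ × ℝ) (z s t : ℝ) : (orb m a z s t).2 1 = 0 := by simp [orb]
theorem orb_snd2 (m : ℕ) (a : ℝ × ℝ) (z s t : ℝ) : (orb m a z s t).2 2 = s := by simp [orb]
theorem orb_fst2 (m : ℕ) (a : ℝ × ℝ) (z s t : ℝ) : (orb m a z s t).1 2 = z + m * t := by simp [orb]
theorem orb_fst0 (m : ℕ) (a : ℝ × ℝ) (z s t : ℝ) :
    (orb m a z s t).1 0 = a.1 / (1 - Real.exp (mu0 * m)) := by simp [orb]
theorem orb_fst1 (m : ℕ) (a : ℝ × ℝ) (z s t : ℝ) :
    (orb m a z s t).1 1 = a.2 / (1 - Real.exp (-(mu0 * m))) := by simp [orb]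

theorem exp_ne_one {m : ℕ} (hm : 1 ≤ m) : 1 - Real.exp (mu0 * m) ≠ 0 := by
  have h := mu0_pos
  have h2 : (1 : ℝ) ≤ m := by exact_mod_cast hm
  have : 1 < Real.exp (mu0 * m) := Real.one_lt_exp_iff.2 (by positivity)
  linarith

theorem exp_neg_ne_one {m : ℕ} (hm : 1 ≤ m) : 1 - Real.exp (-(mu0 * m)) ≠ 0 := by
  have h := mu0_pos
  have h2 : (1 : ℝ) ≤ m := by exact_mod_cast hm
  have : Real.exp (-(mu0 * m)) < 1 := by
    rw [Real.exp_lt_one_iff]
    have : 0 < mu0 * m := by positivity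
    linarith
  linarith

theorem OR1_thm (hDE1 : DE1Stmt) : OR1Stmt := by
  intro m a z s hm hs
  refine ⟨fun t => ⟨vel m, orb_hasDerivAt m a z s t, fun w => ?_⟩, fun t => ?_⟩
  · rw [om_vel]
    have hfd : fderiv ℝ ((m : ℝ) • Ham) = (m : ℝ) • fderiv ℝ Ham :=
      fderiv_const_smul_field (m : ℝ)
    rw [hfd]
    change _ = (m : ℝ) * (fderiv ℝ Ham (orb m a z s t)) w
    rw [hDE1.2.2 _ (orb_snd0 m a z s t) (orb_snd1 m a z s t) w, orb_snd2, hs]
    ring
  · apply P3_ext
    · rw [dk_fst0, orb_fst0, orb_fst0]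
      have := exp_ne_one hm
      push_cast
      field_simp
      ring
    · rw [dk_fst1, orb_fst1, orb_fst1]
      have := exp_neg_ne_one hm
      push_cast
      field_simp
      ring
    · rw [dk_fst2, orb_fst2, orb_fst2]
      push_cast
      ring
    · rw [dk_snd0, orb_snd0, orb_snd0]; simp
    · rw [dk_snd1, orb_snd1, orb_snd1]; simp
    · rw [dk_snd2, orb_snd2, orb_snd2]; simp

theorem ACT_thm (hDE1 : DE1Stmt) : ACTStmt := by
  intro m a z s z' s'
  unfold actionDiff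
  have h1 : ∀ t, ((m : ℝ) • Ham) (orb m a z s t) - ((m : ℝ) • Ham) (orb m a z' s' t) =
      m * (ff s - ff s') := by
    intro t
    simp only [Pi.smul_apply, smul_eq_mul]
    rw [hDE1.1 _ (orb_snd0 m a z s t) (orb_snd1 m a z s t),
      hDE1.1 _ (orb_snd0 m a z' s' t) (orb_snd1 m a z' s' t), orb_snd2, orb_snd2]
    ring
  have h2 : ∀ t, om (orb m a z s t - orb m a z' s' t)
      (deriv (orb m a z s) t + deriv (orb m a z' s') t) = -(2 * m * (s - s')) := by
    intro t
    rw [(orb_hasDerivAt m a z s t).deriv, (orb_hasDerivAt m a z' s' t).deriv]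
    unfold om
    rw [Fin.sum_univ_three]
    simp only [Prod.fst_sub, Prod.snd_sub, Pi.sub_apply, Prod.fst_add, Prod.snd_add, Pi.add_apply,
      orb_snd0, orb_snd1, orb_snd2]
    simp [vel]
    ring
  simp only [h1, h2]
  simp
  ring

theorem ff_int_of_per (h : ∀ s, ff (s + Per) = ff s) (s : ℝ) (j : ℤ) : ff (s + j * Per) = ff s := by
  have hup : ∀ (n : ℕ) (s : ℝ), ff (s + n * Per) = ff s := by
    intro n
    induction n with
    | zero => intro s; simp
    | succ n ih =>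
      intro s
      have : s + ((n + 1 : ℕ) : ℝ) * Per = (s + n * Per) + Per := by push_cast; ring
      rw [this, h, ih]
  rcases Int.eq_nat_or_neg j with ⟨n, rfl | rfl⟩
  · simpa using hup n s
  · have := hup n (s + ((-(n : ℤ) : ℤ) : ℝ) * Per)
    rw [← this]
    congr 1
    push_cast
    ring

/-- the arithmetic of the gap -/
theorem gap_arith {A1 A2 c Q : ℝ} (h1 : A1 < A2) (h2 : A2 - A1 < c) (hc : 0 < c)
    (hQ : Q = 2 * c + 1) (A A' : ℝ) (hA : A = A1 ∨ A = A2) (hA' : A' = A1 ∨ A' = A2) (k : ℤ) :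
    (A = A' ∧ k = 0) ∨ min (A2 - A1) (c + 1) ≤ |A - A' + k * Q| := by
  have hm1 : min (A2 - A1) (c + 1) ≤ A2 - A1 := min_le_left _ _
  have hm2 : min (A2 - A1) (c + 1) ≤ c + 1 := min_le_right _ _
  have hd : |A - A'| ≤ A2 - A1 := by
    rcases hA with rfl | rfl <;> rcases hA' with rfl | rfl <;> rw [abs_le] <;>
      constructor <;> linarith
  by_cases hk : k = 0
  · subst hk
    by_cases hAA : A = A'
    · left; exact ⟨hAA, rfl⟩
    · right
      have h3 : |A - A'| = A2 - A1 := by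
        rcases hA with rfl | rfl <;> rcases hA' with rfl | rfl
        · exact absurd rfl hAA
        · rw [abs_of_neg (by linarith)]; ring
        · rw [abs_of_pos (by linarith)]
        · exact absurd rfl hAA
      have : A - A' + ((0 : ℤ) : ℝ) * Q = A - A' := by simp
      rw [this, h3]
      exact hm1
  · right
    have h3 : (1 : ℝ) ≤ |(k : ℝ)| := by
      have : (1 : ℤ) ≤ |k| := Int.one_le_abs hk
      exact_mod_cast this
    have hQ0 : 0 < Q := by linarith
    have h4 : |(k : ℝ) * Q| ≤ |A - A' + k * Q| + |A - A'| := by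
      have e : (k : ℝ) * Q = (A - A' + k * Q) - (A - A') := by ring
      calc |(k : ℝ) * Q| = |(A - A' + k * Q) - (A - A')| := by rw [← e]
        _ ≤ _ := abs_sub _ _
    rw [abs_mul, abs_of_pos hQ0] at h4
    nlinarith

theorem GAP_thm (hOR2 : OR2Stmt) (hACT : ACTStmt) (hFUN : FUNStmt) (hCCP : CCPStmt) : GAPStmt := by
  obtain ⟨hsm, hper, hbd, s2, h12, h28, hd1, hd2, hdd1, hdd2, hall, hlt⟩ := hFUN
  have hc := hCCP.1
  have hdc : (ff s2 - s2) - (ff s1 - s1) < cc := by
    have := (hbd s2).2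
    have := (hbd s1).1
    linarith
  refine ⟨min ((ff s2 - s2) - (ff s1 - s1)) (cc + 1), lt_min (by linarith) (by linarith), ?_⟩
  intro m a hm x y hx hy
  obtain ⟨z, s, hs, rfl⟩ := hOR2 m a x hm hx
  obtain ⟨z', s', hs', rfl⟩ := hOR2 m a y hm hy
  rw [hACT]
  have hm1 : (1 : ℝ) ≤ m := by exact_mod_cast hm
  have hval : ∀ s, deriv ff s = 1 → ∃ (j : ℤ) (A : ℝ), (A = ff s1 - s1 ∨ A = ff s2 - s2) ∧
      ff s - s = A - j * Per := by
    intro s hs
    obtain ⟨j, hj⟩ := hall s hs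
    rcases hj with hj | hj
    · refine ⟨j, ff s1 - s1, Or.inl rfl, ?_⟩
      rw [hj, ff_int_of_per hper]; ring
    · refine ⟨j, ff s2 - s2, Or.inr rfl, ?_⟩
      rw [hj, ff_int_of_per hper]; ring
  obtain ⟨j, A, hA, e⟩ := hval s hs
  obtain ⟨j', A', hA', e'⟩ := hval s' hs'
  have e2 : (ff s - s) - (ff s' - s') = A - A' + ((j' - j : ℤ) : ℝ) * Per := by
    rw [e, e']; push_cast; ring
  rw [e2]
  rcases gap_arith hlt hdc hc (rfl : Per = 2 * cc + 1) A A' hA hA' (j' - j) with h | h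
  · left
    rw [h.1, h.2]; simp
  · right
    rw [abs_mul, abs_of_nonneg (by linarith : (0 : ℝ) ≤ m)]
    have h0 : 0 ≤ |A - A' + ((j' - j : ℤ) : ℝ) * Per| := abs_nonneg _
    nlinarith

theorem LIS_thm (hOR1 : OR1Stmt) (hOR2 : OR2Stmt) (hNDG : NDGStmt) (hACT : ACTStmt)
    (hCEN : CENStmt) (hFUN : FUNStmt) (hCCP : CCPStmt) : LISStmt := by
  obtain ⟨hsm, hper, hbd, s2, h12, h28, hd1, hd2, hdd1, hdd2, hall, hlt⟩ := hFUN
  have hc := hCCP.1
  have hdc : (ff s2 - s2) - (ff s1 - s1) < cc := by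
    have := (hbd s2).2
    have := (hbd s1).1
    linarith
  intro m a hm ha
  have hm1 : (1 : ℝ) ≤ m := by exact_mod_cast hm
  let ss : Fin 2 → ℝ := ![s1, s2]
  have hss1 : ∀ i, deriv ff (ss i) = 1 := by
    intro i; fin_cases i
    · exact hd1
    · exact hd2
  have hss2 : ∀ i, deriv (deriv ff) (ss i) ≠ 0 := by
    intro i; fin_cases i
    · exact hdd1
    · exact hdd2
  refine ⟨fun i => orb m a 0 (ss i), ?_, ?_, ?_, ?_⟩
  · intro i
    exact hOR1 m a 0 (ss i) hm (hss1 i)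
  · intro i
    exact hNDG m a 0 (ss i) hm (hss1 i) (hss2 i)
  · intro x hx
    obtain ⟨z, s, hs, rfl⟩ := hOR2 m a x hm hx
    obtain ⟨j, hj⟩ := hall s hs
    have hex : ∃ i, s = ss i + j * Per := by
      rcases hj with hj | hj
      · exact ⟨0, hj⟩
      · exact ⟨1, hj⟩
    obtain ⟨i, hi⟩ := hex
    refine ⟨i, dk 0 j 0 0, dk_mem Gam.zero_mem Gam.zero_mem, ?_, z / m, ?_⟩
    · rw [dk_mul, dk_mul, sc_zero]
      have e : ∀ l : ℤ, sc l 0 = 0 := by intro l; simp [sc]
      rw [e, e, e]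
      simp only [add_zero, zero_add]
    · intro t
      have hm0 : (m : ℝ) ≠ 0 := by linarith
      apply P3_ext
      · rw [dk_fst0, orb_fst0, orb_fst0]; simp
      · rw [dk_fst1, orb_fst1, orb_fst1]; simp
      · rw [dk_fst2, orb_fst2, orb_fst2]
        push_cast
        field_simp
        ring
      · rw [dk_snd0, orb_snd0, orb_snd0]; simp
      · rw [dk_snd1, orb_snd1, orb_snd1]; simp
      · rw [dk_snd2, orb_snd2, orb_snd2]; exact hi
  · intro i i' hii h hh hcomm
    obtain ⟨z', j, hj⟩ := hCEN m a hm h hh hcomm 0 (ss i')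
    have e : (fun t => h (orb m a 0 (ss i') t)) = orb m a z' (ss i' + j * Per) := funext hj
    simp only [e]
    rw [hACT, ff_int_of_per hper]
    have h3 : (ff (ss i) - ss i) - (ff (ss i') - (ss i' + j * Per)) =
        (ff (ss i) - ss i) - (ff (ss i') - ss i') + ((j : ℤ) : ℝ) * Per := by ring
    rw [h3]
    have hval : ∀ i, ff (ss i) - ss i = ff s1 - s1 ∨ ff (ss i) - ss i = ff s2 - s2 := by
      intro i; fin_cases i
      · left; rfl
      · right; rfl
    rcases gap_arith hlt hdc hc (rfl : Per = 2 * cc + 1) _ _ (hval i) (hval i') j with h4 | h4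
    · exfalso
      have hne : ff s1 - s1 ≠ ff s2 - s2 := hlt.ne
      fin_cases i <;> fin_cases i'
      · exact hii rfl
      · exact hne h4.1
      · exact hne h4.1.symm
      · exact hii rfl
    · intro h5
      have hpos : 0 < min ((ff s2 - s2) - (ff s1 - s1)) (cc + 1) :=
        lt_min (by linarith) (by linarith)
      rcases mul_eq_zero.1 h5 with h6 | h6
      · linarith
      · rw [h6, abs_zero] at h4
        linarith

end Pool.Agent.H25.BCE
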