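import Pool.Agent.H25.BCE.EXP
import Pool.Agent.H25.BCE.GRP
import Pool.Agent.H25.BCE.FU1
import Pool.Agent.H25.BCE.FU2
import Pool.Agent.H25.BCE.ORB
import Pool.Agent.H22.BCE.DE1
import Pool.Agent.H22.BCE.OR2
import Pool.Agent.H15.BCE.DIN
import Pool.Agent.H29.BCE.BLD
import Pool.Agent.H29.BCE.BLF
import Pool.Agent.H31.BCE.AA2
import Pool.Agent.H31.BCE.AA3
import Pool.Agent.H31.BCE.CC1
import Pool.Agent.H31.BCE.COC
import Pool.Agent.H4.BCE.CIN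
import Pool.Agent.H4.BCE.CN1
import Pool.Agent.H4.BCE.CN2
import Pool.Agent.H59.BCE.HAM
import Pool.Agent.H48.BCE.FDA
import Pool.Agent.H48.BCE.FDB
import Pool.Agent.H67.BCE.AA1
import Pool.Agent.H69.BCE.CEN
import Pool.Agent.H69.BCE.DE2
import Pool.Agent.H7.BCE.PRO
import Pool.Agent.H74.BCE.LA3
import Pool.Agent.H74.BCE.PER
import Pool.Agent.H87.BCE.LA1
import Pool.Agent.H87.BCE.LA2
import Pool.Agent.H89.BCE.CC2
import Pool.Agent.H89.BCE.NDG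

set_option autoImplicit false

namespace Pool.Agent.H25.BCE

open scoped ContDiff Topology
open Pool.Agent.H73 (P V ex ey pb solA solG mu0 Gam lin)

theorem all_thm :
    ∃ (M : ClosedSymplectic 3) (H : P 3 → ℝ), SmoothFn M.Γ H ∧ CompletelyIntegrable M.Γ H ∧
      ExpOrbits M H := by
  have hFU1 : FU1Stmt := FU1_thm
  have hCCP : CCPStmt := CCP_thm hFU1
  have hFU2 : FU2Stmt := FU2_thm hCCP
  have hFUN : FUNStmt := FUN_thm hFU1 hFU2 hCCP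
  have hLA1 : LA1Stmt := Pool.Agent.H87.BCE.LA1_thm
  have hLA2 : LA2Stmt := Pool.Agent.H87.BCE.LA2_thm
  have hLA3 : LA3Stmt := Pool.Agent.H74.BCE.LA3_thm
  have hFDA : FDAStmt := Pool.Agent.H48.BCE.FDA_thm hLA3 hCCP
  have hFDB : FDBStmt := Pool.Agent.H48.BCE.FDB_thm hLA3 hCCP
  have hSYM : SYMStmt := SYM_thm
  have hFRE : FREStmt := FRE_thm hCCP
  have hPRO : PROStmt := Pool.Agent.H7.BCE.PRO_thm hLA2 hCCP
  have hCOC : COCStmt := COC_thm hLA3 hCCP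
  have hPER : PERStmt := Pool.Agent.H74.BCE.PER_thm
  have hBLD : BLDStmt := Pool.Agent.H29.BCE.BLD_thm hLA1 hCCP
  have hBLF : BLFStmt := Pool.Agent.H29.BCE.BLF_thm hLA2 hCCP
  have hDIN : DINStmt := Pool.Agent.H15.BCE.DIN_thm
  have hINV : INVStmt := INV_thm
  have hHAM : HAMStmt := Pool.Agent.H59.BCE.HAM_thm hPER hBLD hBLF hDIN hINV
  have hBBI : BBIStmt := BBI_thm hDIN
  have hGEQ : GEQStmt := GEQ_thm
  have hAA1 : AA1Stmt := Pool.Agent.H67.BCE.AA1_thm hPER hBLD hBLF hDIN hINV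
  have hAA2 : AA2Stmt := AA2_thm hHAM hAA1
  have hAA3 : AA3Stmt := AA3_thm hAA1
  have hCC1 : CC1Stmt := CC1_thm hFDB
  have hCC2 : CC2Stmt := CC2_thm hCC1 hPER hFDA hFDB hPRO hGEQ hBBI
  have hCIN : CINStmt := Pool.Agent.H4.BCE.CIN_thm hAA1 hAA2 hAA3 hCC2
  have hDE1 : DE1Stmt := Pool.Agent.H22.BCE.DE1_thm hHAM hLA1 hBLD hCCP
  have hDE2 : DE2Stmt := Pool.Agent.H69.BCE.DE2_thm hDE1 hHAM hFU2
  have hOR1 : OR1Stmt := OR1_thm hDE1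
  have hOR2 : OR2Stmt := Pool.Agent.H22.BCE.OR2_thm hDE1 hHAM
  have hNDG : NDGStmt := NDG_thm hDE1 hDE2
  have hACT : ACTStmt := ACT_thm hDE1
  have hCEN : CENStmt := Pool.Agent.H69.BCE.CEN_thm
  have hGAP : GAPStmt := GAP_thm hOR2 hACT hFUN hCCP
  have hLIS : LISStmt := LIS_thm hOR1 hOR2 hNDG hACT hCEN hFUN hCCP
  have hCN1 : CN1Stmt := Pool.Agent.H4.BCE.CN1_thm hLA1
  have hCN2 : CN2Stmt := Pool.Agent.H4.BCE.CN2_thm hCN1
  exact ⟨⟨G0, hSYM, hFRE, hPRO, hCOC⟩, Ham, hHAM.1, hCIN,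
    exp_orbits _ rfl hGAP hLIS hCN2⟩

end Pool.Agent.H25.BCE
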