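import Mathlib
import Pool.Agent.H73.Fill
import Pool.Agent.H73.Lat

/-!
MP_696a38_gt: barcode entropy of completely integrable Hamiltonian systems.
General definitions (closed symplectic manifolds `ℝ^{2n}/Γ`, complete integrability, 1-periodic
orbits, action differences, Floer barcodes, barcode entropy) and the example.
Plan: /team-store/BARCODE_ENTROPY_helper25.md (author helper25).
-/

set_option autoImplicit false

namespace Pool.Agent.H25.BCE

open scoped ContDiff Topology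
open Pool.Agent.H73 (P V ex ey pb solA solG mu0 Gam lin)

/-! ### General definitions -/

/-- The symplectic form `∑ dq_i ∧ dp_i` of `ℝ^{2n}`. -/
def om {n : ℕ} (v w : P n) : ℝ := ∑ i, (v.1 i * w.2 i - v.2 i * w.1 i)

/-- A closed symplectic manifold `ℝ^{2n}/Γ`: `Γ` is a group of affine symplectic maps acting
freely, properly and cocompactly. Its fundamental group is `Γ`. -/
structure ClosedSymplectic (n : ℕ) where
  Γ : Subgroup (P n ≃ᵃ[ℝ] P n)
  symp : ∀ g ∈ Γ, ∀ v w : P n, om (g.linear v) (g.linear w) = om v w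
  free : ∀ g ∈ Γ, ∀ x : P n, g x = x → g = 1
  proper : ∀ K : Set (P n), IsCompact K → {g | g ∈ Γ ∧ ∃ x ∈ K, g x ∈ K}.Finite
  cocompact : ∃ K : Set (P n), IsCompact K ∧ ∀ x, ∃ g ∈ Γ, g x ∈ K

/-- Smooth functions on `ℝ^{2n}/Γ`. -/
def SmoothFn {n : ℕ} (Γ : Subgroup (P n ≃ᵃ[ℝ] P n)) (F : P n → ℝ) : Prop :=
  ContDiff ℝ ∞ F ∧ ∀ g ∈ Γ, ∀ x, F (g x) = F x

/-- Complete integrability of the Hamiltonian flow of `H` on `ℝ^{2n}/Γ`. -/
def CompletelyIntegrable {n : ℕ} (Γ : Subgroup (P n ≃ᵃ[ℝ] P n)) (H : P n → ℝ) : Prop :=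
  ∃ F : Fin n → P n → ℝ, (∀ i, SmoothFn Γ (F i)) ∧ (∀ i j x, pb (F i) (F j) x = 0) ∧
    (∀ i x, pb H (F i) x = 0) ∧
    ∃ U : Set (P n), IsOpen U ∧ Dense U ∧
      ∀ x ∈ U, LinearIndependent ℝ (fun i => fderiv ℝ (F i) x)

/-- `x` is the lift of a 1-periodic orbit of `H` in the free homotopy class of `g`. -/
structure PeriodicOrbit {n : ℕ} (H : P n → ℝ) (g : P n ≃ᵃ[ℝ] P n) (x : ℝ → P n) : Prop where
  ham : ∀ t, ∃ v, HasDerivAt x v t ∧ ∀ w, om v w = fderiv ℝ H (x t) w
  per : ∀ t, x (t + 1) = g (x t)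

/-- The difference `A(x) - A(y)` of the values of the action functional of `H` at two paths `x`, `y`
with `x(1) = g x(0)`, `y(1) = g y(0)` (the second term is the area of the strip `(1-s)x + sy`). -/
noncomputable def actionDiff {n : ℕ} (H : P n → ℝ) (x y : ℝ → P n) : ℝ :=
  (∫ t in (0 : ℝ)..1, (H (x t) - H (y t))) +
    (1 / 2) * ∫ t in (0 : ℝ)..1, om (x t - y t) (deriv x t + deriv y t)

/-- `ξ` solves the linearised equation along `x` and is periodic in the class of `g`. -/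
structure LinPeriodic {n : ℕ} (H : P n → ℝ) (g : P n ≃ᵃ[ℝ] P n) (x ξ : ℝ → P n) : Prop where
  ham : ∀ t, ∃ v, HasDerivAt ξ v t ∧ ∀ w, om v w = fderiv ℝ (fderiv ℝ H) (x t) (ξ t) w
  per : ∀ t, ξ (t + 1) = g.linear (ξ t)

/-- Transversal nondegeneracy of a 1-periodic orbit of an autonomous Hamiltonian. -/
def Nondegenerate {n : ℕ} (H : P n → ℝ) (g : P n ≃ᵃ[ℝ] P n) (x : ℝ → P n) : Prop :=
  ∀ ξ, LinPeriodic H g x ξ → ∃ c : ℝ, ∀ t, ξ t = c • deriv x t

/-- Up to time shift and deck transformations `y_1, …, y_N` are all the 1-periodic orbits of `H`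
in the free homotopy class of `g`; they are transversally nondegenerate and their action values
are different (modulo the periods of the action functional). -/
structure OrbitList {n : ℕ} (Γ : Subgroup (P n ≃ᵃ[ℝ] P n)) (H : P n → ℝ) (g : P n ≃ᵃ[ℝ] P n)
    (N : ℕ) (y : Fin N → ℝ → P n) : Prop where
  orb : ∀ i, PeriodicOrbit H g (y i)
  nd : ∀ i, Nondegenerate H g (y i)
  all : ∀ x, PeriodicOrbit H g x →
    ∃ i, ∃ h ∈ Γ, h * g = g * h ∧ ∃ τ : ℝ, ∀ t, x t = h (y i (t + τ))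
  dist : ∀ i j, i ≠ j → ∀ h ∈ Γ, h * g = g * h → actionDiff H (y i) (fun t => h (y j t)) ≠ 0

/-- Two different action values in the class of `g` differ by at least `δ`. -/
def ActionGap {n : ℕ} (H : P n → ℝ) (g : P n ≃ᵃ[ℝ] P n) (δ : ℝ) : Prop :=
  ∀ x y, PeriodicOrbit H g x → PeriodicOrbit H g y →
    actionDiff H x y = 0 ∨ δ ≤ |actionDiff H x y|

/-- The barcodes of the filtered Floer homology (over the field with two elements) of the time-one
maps of autonomous Hamiltonians on `M = ℝ^{2n}/Γ`. `len H c j`, `j = 0, 1, …`, are the lengths of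
the bars in the free homotopy class `c` (a conjugacy class of `π₁(M) = Γ`), completed by zeros;
infinite bars have length `∞`. Only two properties of noncontractible classes are recorded. -/
structure FloerBarcodes {n : ℕ} (M : ClosedSymplectic n) where
  len : (P n → ℝ) → ConjClasses M.Γ → ℕ → ENNReal
  /-- The length of a bar is a difference of action values. -/
  gap : ∀ H, SmoothFn M.Γ H → ∀ g : M.Γ, g ≠ 1 → ∀ δ : ℝ, 0 < δ →
    ActionGap H (g : P n ≃ᵃ[ℝ] P n) δ →
    ∀ j, len H (ConjClasses.mk g) j = 0 ∨ ENNReal.ofReal δ ≤ len H (ConjClasses.mk g) j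
  /-- The local Floer homology of a transversally nondegenerate orbit is `H_*(S¹)`, of rank two,
  and the total Floer homology of a noncontractible class is zero: `N` orbits give `N` bars. -/
  count : ∀ H, SmoothFn M.Γ H → ∀ g : M.Γ, g ≠ 1 → ∀ (N : ℕ) (y : Fin N → ℝ → P n),
    OrbitList M.Γ H (g : P n ≃ᵃ[ℝ] P n) N y →
    (∃ δ : ℝ, 0 < δ ∧ ActionGap H (g : P n ≃ᵃ[ℝ] P n) δ) →
    {j | len H (ConjClasses.mk g) j ≠ 0}.encard = N

/-- Number of bars of length greater than `ε` (all free homotopy classes). -/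
noncomputable def barCount {n : ℕ} {M : ClosedSymplectic n} (B : FloerBarcodes M)
    (H : P n → ℝ) (ε : ℝ) : ℕ∞ :=
  {x : ConjClasses M.Γ × ℕ | ENNReal.ofReal ε < B.len H x.1 x.2}.encard

/-- `limsup (1/k) log b_ε(φ^k)`; the `k`-th iterate of the time-one map of `H` is the time-one map
of `kH`. -/
noncomputable def hbarEps {n : ℕ} {M : ClosedSymplectic n} (B : FloerBarcodes M)
    (H : P n → ℝ) (ε : ℝ) : EReal :=
  Filter.limsup (fun k : ℕ => ENNReal.log (barCount B ((k : ℝ) • H) ε : ENNReal) / (k : EReal))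
    Filter.atTop

/-- The barcode entropy (the limit for `ε → 0` is a supremum). -/
noncomputable def hbar {n : ℕ} {M : ClosedSymplectic n} (B : FloerBarcodes M)
    (H : P n → ℝ) : EReal :=
  ⨆ (ε : ℝ) (_ : 0 < ε), hbarEps B H ε

/-! ### The example -/

/-- size of the blocks -/
noncomputable def dl : ℝ := 1 / 64
noncomputable def s1 : ℝ := 1 / 100
/-- the profile before normalisation -/
noncomputable def f0 (s : ℝ) : ℝ := -expNegInvGlue (dl - s ^ 2)
/-- normalising constant: the profile `cc * f0` has derivative one at `s1` -/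
noncomputable def cc : ℝ := (deriv f0 s1)⁻¹
/-- the period in the direction of the momentum `p₂` -/
noncomputable def Per : ℝ := 2 * cc + 1
/-- the profile, periodised -/
noncomputable def ff (s : ℝ) : ℝ := ∑ᶠ j : ℤ, cc * f0 (s + j * Per)

/-- weights of the monodromy -/
def wt : Fin 3 → ℝ := ![1, -1, 0]

/-- linear part of the deck transformations -/
noncomputable def LL (l : ℤ) : P 3 ≃ₗ[ℝ] P 3 where
  toFun x := (fun i => Real.exp (mu0 * l * wt i) * x.1 i,
    fun i => Real.exp (-(mu0 * l * wt i)) * x.2 i)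
  map_add' x y := by
    refine Prod.ext ?_ ?_ <;> funext i <;>
      simp only [Prod.fst_add, Prod.snd_add, Pi.add_apply] <;> ring
  map_smul' c x := by
    refine Prod.ext ?_ ?_ <;> funext i <;>
      simp only [Prod.smul_fst, Prod.smul_snd, Pi.smul_apply, smul_eq_mul, RingHom.id_apply] <;> ring
  invFun x := (fun i => Real.exp (-(mu0 * l * wt i)) * x.1 i,
    fun i => Real.exp (mu0 * l * wt i) * x.2 i)
  left_inv x := by
    refine Prod.ext ?_ ?_ <;> funext i <;> simp only [] <;> rw [← mul_assoc, ← Real.exp_add] <;> simp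
  right_inv x := by
    refine Prod.ext ?_ ?_ <;> funext i <;> simp only [] <;> rw [← mul_assoc, ← Real.exp_add] <;> simp

/-- translation part of the deck transformations -/
noncomputable def trn (l j : ℤ) (a b : ℝ × ℝ) : P 3 :=
  (![a.1, a.2, (l : ℝ)], ![b.1, b.2, (j : ℝ) * Per])

/-- the deck transformations `x ↦ LL l x + trn l j a b` -/
noncomputable def dk (l j : ℤ) (a b : ℝ × ℝ) : P 3 ≃ᵃ[ℝ] P 3 :=
  (LL l).toAffineEquiv.trans (AffineEquiv.constVAdd ℝ (P 3) (trn l j a b))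

/-- action of the monodromy on the plane -/
noncomputable def sc (l : ℤ) (a : ℝ × ℝ) : ℝ × ℝ :=
  (Real.exp (mu0 * l) * a.1, Real.exp (-(mu0 * l)) * a.2)

theorem dk_apply (l j : ℤ) (a b : ℝ × ℝ) (x : P 3) : dk l j a b x = trn l j a b + LL l x := rfl

theorem dk_linear (l j : ℤ) (a b : ℝ × ℝ) (v : P 3) : (dk l j a b).linear v = LL l v := by
  have h : (dk l j a b).linear v = dk l j a b (v +ᵥ (0 : P 3)) -ᵥ dk l j a b 0 := by
    rw [AffineEquiv.map_vadd, vadd_vsub]
  rw [h, dk_apply, dk_apply]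
  simp

theorem LL_fst (l : ℤ) (x : P 3) (i : Fin 3) :
    (LL l x).1 i = Real.exp (mu0 * l * wt i) * x.1 i := rfl

theorem LL_snd (l : ℤ) (x : P 3) (i : Fin 3) :
    (LL l x).2 i = Real.exp (-(mu0 * l * wt i)) * x.2 i := rfl

theorem dk_ext {g : P 3 ≃ᵃ[ℝ] P 3} {l j : ℤ} {a b : ℝ × ℝ}
    (h : ∀ x, g x = trn l j a b + LL l x) : g = dk l j a b :=
  AffineEquiv.ext h

theorem dk_mul (l j l' j' : ℤ) (a b a' b' : ℝ × ℝ) :
    dk l j a b * dk l' j' a' b' =
      dk (l + l') (j + j') (a + sc l a') (b + sc (-l) b') := by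
  apply dk_ext
  intro x
  rw [AffineEquiv.mul_def, AffineEquiv.trans_apply, dk_apply, dk_apply]
  refine Prod.ext ?_ ?_
  · funext i
    simp only [Prod.fst_add, Pi.add_apply, LL_fst]
    fin_cases i <;> simp [trn, wt, sc, mul_add, Real.exp_add] <;> ring
  · funext i
    simp only [Prod.snd_add, Pi.add_apply, LL_snd]
    fin_cases i <;> simp [trn, wt, sc, mul_add, Real.exp_add] <;> ring

theorem dk_one : dk 0 0 0 0 = 1 := by
  symm
  apply dk_ext
  intro x
  rw [AffineEquiv.one_def, AffineEquiv.refl_apply]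
  refine Prod.ext ?_ ?_
  · funext i
    simp only [Prod.fst_add, Pi.add_apply, LL_fst]
    fin_cases i <;> simp [trn, wt]
  · funext i
    simp only [Prod.snd_add, Pi.add_apply, LL_snd]
    fin_cases i <;> simp [trn, wt]

theorem sc_mem {a : ℝ × ℝ} (l : ℤ) (ha : a ∈ Gam) : sc l a ∈ Gam :=
  Pool.Agent.H73.Gam_inv l a ha

theorem sc_sc (l l' : ℤ) (a : ℝ × ℝ) : sc l (sc l' a) = sc (l + l') a := by
  refine Prod.ext ?_ ?_
  · simp only [sc]
    rw [← mul_assoc, ← Real.exp_add]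
    push_cast
    ring_nf
  · simp only [sc]
    rw [← mul_assoc, ← Real.exp_add]
    push_cast
    ring_nf

theorem sc_zero (a : ℝ × ℝ) : sc 0 a = a := by
  simp [sc]

theorem sc_add (l : ℤ) (a b : ℝ × ℝ) : sc l (a + b) = sc l a + sc l b := by
  refine Prod.ext ?_ ?_ <;> simp only [sc, Prod.fst_add, Prod.snd_add] <;> ring

theorem sc_neg (l : ℤ) (a : ℝ × ℝ) : sc l (-a) = -sc l a := by
  refine Prod.ext ?_ ?_ <;> simp only [sc, Prod.fst_neg, Prod.snd_neg] <;> ring

theorem dk_inv (l j : ℤ) (a b : ℝ × ℝ) :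
    (dk l j a b)⁻¹ = dk (-l) (-j) (-sc (-l) a) (-sc l b) := by
  symm
  apply eq_inv_of_mul_eq_one_left
  rw [dk_mul, ← dk_one]
  simp

/-- the deck group -/
noncomputable def G0 : Subgroup (P 3 ≃ᵃ[ℝ] P 3) where
  carrier := {g | ∃ (l j : ℤ) (a b : ℝ × ℝ), a ∈ Gam ∧ b ∈ Gam ∧ g = dk l j a b}
  mul_mem' := by
    rintro g g' ⟨l, j, a, b, ha, hb, rfl⟩ ⟨l', j', a', b', ha', hb', rfl⟩
    exact ⟨l + l', j + j', a + sc l a', b + sc (-l) b', Gam.add_mem ha (sc_mem _ ha'),
      Gam.add_mem hb (sc_mem _ hb'), dk_mul _ _ _ _ _ _ _ _⟩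
  one_mem' := ⟨0, 0, 0, 0, Gam.zero_mem, Gam.zero_mem, dk_one.symm⟩
  inv_mem' := by
    rintro g ⟨l, j, a, b, ha, hb, rfl⟩
    exact ⟨-l, -j, -sc (-l) a, -sc l b, Gam.neg_mem (sc_mem _ ha), Gam.neg_mem (sc_mem _ hb),
      dk_inv _ _ _ _⟩

theorem dk_mem {l j : ℤ} {a b : ℝ × ℝ} (ha : a ∈ Gam) (hb : b ∈ Gam) : dk l j a b ∈ G0 :=
  ⟨l, j, a, b, ha, hb, rfl⟩

/-- shifts of the blocks -/
noncomputable def sh (r : ℤ × Gam) : P 3 := (0, ![r.2.1.1, r.2.1.2, (r.1 : ℝ) * Per])

/-- the energy of the Sol geodesic flow: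
`E = p₂² + exp(2 μ q₂) p₀² + exp(-2 μ q₂) p₁²` -/
noncomputable def En (x : P 3) : ℝ := solA mu0 0 2 x

/-- the Hamiltonian -/
noncomputable def Ham (x : P 3) : ℝ :=
  -cc * ∑ᶠ r : ℤ × Gam, expNegInvGlue (dl - En (x + sh r))

end Pool.Agent.H25.BCE
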