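import Pool.Agent.H25.BCE.Defs

/-!
MP_696a38_gt: statements of the modules of board `bce`.
A module XXX with needs YYY is a file with `theorem XXX_thm (hYYY : YYYStmt) ... : XXXStmt`.
-/

set_option autoImplicit false

namespace Pool.Agent.H25.BCE

open scoped ContDiff Topology
open Pool.Agent.H73 (P V ex ey pb solA solG mu0 Gam lin)

/-! ### Lattice and group -/

/-- LA1: norm of a lattice vector. -/
def LA1Stmt : Prop := ∀ a ∈ Gam, a ≠ 0 → 1 / 8 ≤ |a.1 * a.2|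

/-- LA2: discreteness. -/
def LA2Stmt : Prop := ∀ R : ℝ, {a : ℝ × ℝ | a ∈ Gam ∧ |a.1| ≤ R ∧ |a.2| ≤ R}.Finite

/-- open fundamental domain of the lattice -/
def D2 : Set (ℝ × ℝ) := {y | 0 < lin 0 y ∧ lin 0 y < 1 ∧ 0 < lin 1 y ∧ lin 1 y < 1}

/-- LA3: fundamental domain of the lattice. -/
def LA3Stmt : Prop := (∀ a ∈ Gam, ∀ y ∈ D2, y + a ∈ D2 → a = 0) ∧
  (∀ y : ℝ × ℝ, ∃ a ∈ Gam, y + a ∈ closure D2) ∧ IsOpen D2 ∧ Bornology.IsBounded D2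

/-- SYM: the deck transformations are symplectic. -/
def SYMStmt : Prop := ∀ g ∈ G0, ∀ v w : P 3, om (g.linear v) (g.linear w) = om v w

/-- FRE: the action is free. -/
def FREStmt : Prop := ∀ g ∈ G0, ∀ x : P 3, g x = x → g = 1

/-- PRO: the action is proper. -/
def PROStmt : Prop := ∀ K : Set (P 3), IsCompact K → {g | g ∈ G0 ∧ ∃ x ∈ K, g x ∈ K}.Finite

/-- COC: the action is cocompact. -/
def COCStmt : Prop := ∃ K : Set (P 3), IsCompact K ∧ ∀ x, ∃ g ∈ G0, g x ∈ K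

/-- open fundamental domain of the deck group -/
def D0 : Set (P 3) := {x | (x.1 0, x.1 1) ∈ D2 ∧ 0 < x.1 2 ∧ x.1 2 < 1 ∧
  (x.2 0, x.2 1) ∈ D2 ∧ 0 < x.2 2 ∧ x.2 2 < Per}

/-- FDA: the translates of the fundamental domain are disjoint. -/
def FDAStmt : Prop := ∀ g ∈ G0, ∀ x ∈ D0, g x ∈ D0 → g = 1

/-- FDB: the translates of the fundamental domain are dense. -/
def FDBStmt : Prop := IsOpen D0 ∧ Bornology.IsBounded D0 ∧ Dense {x : P 3 | ∃ g ∈ G0, g x ∈ D0}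

/-! ### Periodisation -/

/-- PER: periodisation of a function supported in an open set with disjoint translates. -/
def PERStmt : Prop := ∀ (ι : Type) (T : ι → P 3 → P 3) (W : Set (P 3)) (f : P 3 → ℝ),
  IsOpen W → (∀ r, ContDiff ℝ ∞ (T r)) → (∀ r r' x, T r x ∈ W → T r' x ∈ W → r = r') →
  LocallyFinite (fun r => {x | T r x ∈ W}) → ContDiff ℝ ∞ f → (∀ x, x ∉ W → f x = 0) →
  ContDiff ℝ ∞ (fun x => ∑ᶠ r, f (T r x)) ∧
  (∀ r x, T r x ∈ W → ∑ᶠ r', f (T r' x) = f (T r x)) ∧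
  (∀ x, (∀ r, T r x ∉ W) → ∑ᶠ r', f (T r' x) = 0)

/-- CCP: the constants are positive. -/
def CCPStmt : Prop := 0 < cc ∧ 1 < Per

/-- BLD: the shifted blocks are disjoint. -/
def BLDStmt : Prop := ∀ (x : P 3) (r r' : ℤ × Gam),
  En (x + sh r) < dl → En (x + sh r') < dl → r = r'

/-- BLF: the shifted blocks are a locally finite family. -/
def BLFStmt : Prop := LocallyFinite (fun r : ℤ × Gam => {x : P 3 | En (x + sh r) < dl})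

/-- DIN: the Sol functions are invariant under the deck transformations with j = 0, b = 0. -/
def DINStmt : Prop := ∀ (i : Fin 3) (l : ℤ) (a : ℝ × ℝ) (x : P 3),
  solA mu0 0 i (dk l 0 a 0 x) = solA mu0 0 i x

/-- INV: periodised functions are invariant under the deck group. -/
def INVStmt : Prop := ∀ f : P 3 → ℝ, (∀ (l : ℤ) (a : ℝ × ℝ) (x : P 3), f (dk l 0 a 0 x) = f x) →
  ∀ g ∈ G0, ∀ x, ∑ᶠ r : ℤ × Gam, f (g x + sh r) = ∑ᶠ r : ℤ × Gam, f (x + sh r)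

/-- HAM: the Hamiltonian is a smooth function on the manifold, explicit in the blocks. -/
def HAMStmt : Prop := SmoothFn G0 Ham ∧
  (∀ (r : ℤ × Gam) (x : P 3), En (x + sh r) < dl →
    Ham x = -cc * expNegInvGlue (dl - En (x + sh r))) ∧
  (∀ x : P 3, (∀ r : ℤ × Gam, dl ≤ En (x + sh r)) → Ham x = 0)

/-! ### Complete integrability -/

/-- the union of the blocks -/
def BB : Set (P 3) := {x | ∃ r : ℤ × Gam, En (x + sh r) < dl}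

/-- BBI: the blocks are invariant. -/
def BBIStmt : Prop := ∀ g ∈ G0, ∀ x : P 3, g x ∈ BB ↔ x ∈ BB

/-- the periodised Sol integrals -/
noncomputable def AA (i : Fin 3) (x : P 3) : ℝ := ∑ᶠ r : ℤ × Gam, solG mu0 dl 0 i (x + sh r)

/-- AA1: the periodised Sol integrals are smooth functions on the manifold. -/
def AA1Stmt : Prop := (∀ i, SmoothFn G0 (AA i)) ∧
  (∀ (i : Fin 3) (r : ℤ × Gam) (x : P 3), En (x + sh r) < dl →
    AA i x = solG mu0 dl 0 i (x + sh r)) ∧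
  (∀ i, ∀ x ∉ BB, AA i x = 0) ∧ (∀ i x, 0 ≤ AA i x)

/-- AA2: they commute with each other and with the Hamiltonian. -/
def AA2Stmt : Prop := (∀ i j x, pb (AA i) (AA j) x = 0) ∧ (∀ i x, pb Ham (AA i) x = 0)

/-- AA3: they are independent on a dense part of the blocks. -/
def AA3Stmt : Prop := ∀ x ∈ BB, ∀ N ∈ 𝓝 x, ∃ y ∈ N, y ∈ BB ∧
  LinearIndependent ℝ (fun i => fderiv ℝ (AA i) y)

/-- GEQ: equivariance of the Poisson bracket and of the independence. -/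
def GEQStmt : Prop := ∀ g ∈ G0, ∀ (F F' : P 3 → ℝ) (x : P 3), ContDiff ℝ ∞ F → ContDiff ℝ ∞ F' →
  pb (fun y => F (g y)) (fun y => F' (g y)) x = pb F F' (g x)

/-- CC1: commuting functions in the complement of the blocks, inside the fundamental domain. -/
def CC1Stmt : Prop := ∃ C : Fin 3 → P 3 → ℝ, (∀ i, ContDiff ℝ ∞ (C i)) ∧ (∀ i x, 0 ≤ C i x) ∧
  (∀ i, ∀ x ∉ D0 \ closure BB, C i x = 0) ∧ (∀ i j x, pb (C i) (C j) x = 0) ∧
  (∀ x ∈ D0 \ closure BB, ∀ N ∈ 𝓝 x, ∃ y ∈ N, y ∈ D0 \ closure BB ∧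
    LinearIndependent ℝ (fun i => fderiv ℝ (C i) y))

/-- CC2: the same on the manifold. -/
def CC2Stmt : Prop := ∃ C : Fin 3 → P 3 → ℝ, (∀ i, SmoothFn G0 (C i)) ∧ (∀ i x, 0 ≤ C i x) ∧
  (∀ i, ∀ x ∈ closure BB, C i x = 0) ∧ (∀ i j x, pb (C i) (C j) x = 0) ∧
  (∀ x ∉ closure BB, ∀ N ∈ 𝓝 x, ∃ y ∈ N, y ∉ closure BB ∧
    LinearIndependent ℝ (fun i => fderiv ℝ (C i) y))

/-- CIN: complete integrability. -/
def CINStmt : Prop := CompletelyIntegrable G0 Ham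

/-! ### Dynamics -/

/-- FUN: the profile. -/
def FUNStmt : Prop := ContDiff ℝ ∞ ff ∧ (∀ s, ff (s + Per) = ff s) ∧
  (∀ s, -cc ≤ ff s ∧ ff s ≤ 0) ∧
  ∃ s2 : ℝ, s1 < s2 ∧ s2 < 1 / 8 ∧ deriv ff s1 = 1 ∧ deriv ff s2 = 1 ∧
    deriv (deriv ff) s1 ≠ 0 ∧ deriv (deriv ff) s2 ≠ 0 ∧
    (∀ s, deriv ff s = 1 → ∃ j : ℤ, s = s1 + j * Per ∨ s = s2 + j * Per) ∧
    ff s1 - s1 < ff s2 - s2

/-- FU1: the unimodal function f0' on [0, 1/8]. -/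
def FU1Stmt : Prop := ∃ st : ℝ, s1 < st ∧ st < 1 / 8 ∧ StrictMonoOn (deriv f0) (Set.Icc 0 st) ∧
  StrictAntiOn (deriv f0) (Set.Icc st (1 / 8)) ∧
  (∀ s, 0 < s → s < 1 / 8 → s ≠ st → deriv (deriv f0) s ≠ 0) ∧
  (∀ s, s ≤ 0 ∨ 1 / 8 ≤ s → deriv f0 s ≤ 0) ∧ 0 < deriv f0 s1

/-- FU2: the periodised profile agrees locally with the profile. -/
def FU2Stmt : Prop := ContDiff ℝ ∞ ff ∧ (∀ s, ff (s + Per) = ff s) ∧
  (∀ s, |s| < Per / 2 → ff s = cc * f0 s) ∧ (∀ s, -cc ≤ ff s ∧ ff s ≤ 0)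

/-- DE1: the Hamiltonian and its differential on the submanifold `p₀ = p₁ = 0`. -/
def DE1Stmt : Prop := (∀ x : P 3, x.2 0 = 0 → x.2 1 = 0 → Ham x = ff (x.2 2)) ∧
  (∀ x : P 3, fderiv ℝ Ham x (ex 0) = 0 ∧ fderiv ℝ Ham x (ex 1) = 0) ∧
  (∀ x : P 3, x.2 0 = 0 → x.2 1 = 0 → ∀ w : P 3,
    fderiv ℝ Ham x w = deriv ff (x.2 2) * w.2 2)

/-- DE2: second derivatives. -/
def DE2Stmt : Prop := (∀ x ξ : P 3, fderiv ℝ (fderiv ℝ Ham) x ξ (ex 0) = 0 ∧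
    fderiv ℝ (fderiv ℝ Ham) x ξ (ex 1) = 0) ∧
  (∀ x ξ : P 3, x.2 0 = 0 → x.2 1 = 0 → ξ.2 0 = 0 → ξ.2 1 = 0 → ∀ w : P 3,
    fderiv ℝ (fderiv ℝ Ham) x ξ w = deriv (deriv ff) (x.2 2) * ξ.2 2 * w.2 2)

/-- the periodic orbits in the class of `dk m 0 a 0` -/
noncomputable def orb (m : ℕ) (a : ℝ × ℝ) (z s t : ℝ) : P 3 :=
  (![a.1 / (1 - Real.exp (mu0 * m)), a.2 / (1 - Real.exp (-(mu0 * m))), z + m * t], ![0, 0, s])

/-- OR1: the curves `orb` are periodic orbits of `m • Ham`. -/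
def OR1Stmt : Prop := ∀ (m : ℕ) (a : ℝ × ℝ) (z s : ℝ), 1 ≤ m → deriv ff s = 1 →
  PeriodicOrbit ((m : ℝ) • Ham) (dk m 0 a 0) (orb m a z s)

/-- OR2: all periodic orbits are of this form. -/
def OR2Stmt : Prop := ∀ (m : ℕ) (a : ℝ × ℝ) (x : ℝ → P 3), 1 ≤ m →
  PeriodicOrbit ((m : ℝ) • Ham) (dk m 0 a 0) x →
  ∃ z s : ℝ, deriv ff s = 1 ∧ x = orb m a z s

/-- NDG: they are transversally nondegenerate. -/
def NDGStmt : Prop := ∀ (m : ℕ) (a : ℝ × ℝ) (z s : ℝ), 1 ≤ m → deriv ff s = 1 →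
  deriv (deriv ff) s ≠ 0 → Nondegenerate ((m : ℝ) • Ham) (dk m 0 a 0) (orb m a z s)

/-- ACT: differences of actions. -/
def ACTStmt : Prop := ∀ (m : ℕ) (a : ℝ × ℝ) (z s z' s' : ℝ),
  actionDiff ((m : ℝ) • Ham) (orb m a z s) (orb m a z' s') = m * ((ff s - s) - (ff s' - s'))

/-- CEN: action of the centraliser. -/
def CENStmt : Prop := ∀ (m : ℕ) (a : ℝ × ℝ), 1 ≤ m → ∀ h ∈ G0,
  h * dk m 0 a 0 = dk m 0 a 0 * h → ∀ z s : ℝ, ∃ (z' : ℝ) (j : ℤ),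
    ∀ t, h (orb m a z s t) = orb m a z' (s + j * Per) t

/-- GAP: the action gap. -/
def GAPStmt : Prop := ∃ δ : ℝ, 0 < δ ∧ ∀ (m : ℕ) (a : ℝ × ℝ), 1 ≤ m →
  ActionGap ((m : ℝ) • Ham) (dk m 0 a 0) δ

/-- LIS: two orbits in each class. -/
def LISStmt : Prop := ∀ (m : ℕ) (a : ℝ × ℝ), 1 ≤ m → a ∈ Gam →
  ∃ y : Fin 2 → ℝ → P 3, OrbitList G0 ((m : ℝ) • Ham) (dk m 0 a 0) 2 y

/-! ### Counting and conclusion -/

/-- CN1: many lattice vectors which are different modulo `1 - A^m`. -/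
def CN1Stmt : Prop := ∃ e ∈ Gam, ∃ c : ℝ, 0 < c ∧ ∀ m : ℕ, 1 ≤ m →
  ∀ n n' : ℕ, (n : ℝ) ≤ c * Real.exp (mu0 * m / 2) → (n' : ℝ) ≤ c * Real.exp (mu0 * m / 2) →
  ∀ a ∈ Gam, (n : ℝ) • e - (n' : ℝ) • e = a - sc m a → n = n'

/-- CN2: exponentially many conjugacy classes. -/
def CN2Stmt : Prop := ∃ c : ℝ, 0 < c ∧ ∀ m : ℕ, 1 ≤ m → ∃ S : Finset (ConjClasses G0),
  (∀ C ∈ S, ∃ a ∈ Gam, ∃ h : dk m 0 a 0 ∈ G0, C = ConjClasses.mk ⟨dk m 0 a 0, h⟩) ∧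
  c * Real.exp (mu0 * m / 2) / m ≤ S.card

/-- ENT: exponential growth gives positive entropy. -/
def ENTStmt : Prop := ∀ (b : ℕ → ℕ∞) (c : ℝ), 0 < c →
  (∀ m : ℕ, 1 ≤ m → ENNReal.ofReal (c * Real.exp (mu0 * m / 2) / m) ≤ (b m : ENNReal)) →
  (0 : EReal) < Filter.limsup (fun k : ℕ => ENNReal.log (b k : ENNReal) / (k : EReal)) Filter.atTop

end Pool.Agent.H25.BCE
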