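import Pool.Agent.H25.BCE.NON
import Pool.Agent.H25.BCE.Stmts

set_option autoImplicit false

namespace Pool.Agent.H25.BCE

open scoped ContDiff Topology
open Pool.Agent.H73 (P V ex ey pb solA solG mu0 Gam lin)

variable {n : ℕ}

/-- Exponentially many nondegenerate periodic orbits: for all large `m` there are at least
`exp (κ m)` noncontractible free homotopy classes in which `m H` has exactly two 1-periodic orbits
(circles of orbits), transversally nondegenerate and of different action, and all action differences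
are zero or at least `δ`, with `δ` independent of `m`. -/
def ExpOrbits (M : ClosedSymplectic n) (H : P n → ℝ) : Prop :=
  ∃ δ κ : ℝ, 0 < δ ∧ 0 < κ ∧ ∃ m0 : ℕ, ∀ m : ℕ, m0 ≤ m → ∃ S : Finset (ConjClasses M.Γ),
    Real.exp (κ * m) ≤ S.card ∧ ∀ C ∈ S, ∃ g : M.Γ, g ≠ 1 ∧ C = ConjClasses.mk g ∧
      ActionGap ((m : ℝ) • H) (g : P n ≃ᵃ[ℝ] P n) δ ∧
      ∃ y : Fin 2 → ℝ → P n, OrbitList M.Γ ((m : ℝ) • H) (g : P n ≃ᵃ[ℝ] P n) 2 y

theorem smoothFn_smul {Γ : Subgroup (P n ≃ᵃ[ℝ] P n)} {H : P n → ℝ} (h : SmoothFn Γ H) (c : ℝ) :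
    SmoothFn Γ (c • H) := by
  refine ⟨h.1.const_smul c, ?_⟩
  intro g hg x
  simp only [Pi.smul_apply, h.2 g hg x]

open Filter in
/-- exponential growth gives positive entropy -/
theorem ent_pos (b : ℕ → ℕ∞) (κ : ℝ) (hκ : 0 < κ) (m0 : ℕ)
    (hb : ∀ m : ℕ, m0 ≤ m → ENNReal.ofReal (Real.exp (κ * m)) ≤ (b m : ENNReal)) :
    (0 : EReal) < Filter.limsup (fun k : ℕ => ENNReal.log (b k : ENNReal) / (k : EReal))
      Filter.atTop := by
  have key : ∀ᶠ m : ℕ in atTop, ((κ : ℝ) : EReal) ≤ ENNReal.log (b m : ENNReal) / (m : EReal) := by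
    filter_upwards [eventually_ge_atTop m0, eventually_ge_atTop 1] with m hm h1m
    have hlog : ((κ * m : ℝ) : EReal) ≤ ENNReal.log (b m : ENNReal) := by
      have := ENNReal.log_monotone (hb m hm)
      rw [ENNReal.log_ofReal_of_pos (Real.exp_pos _), Real.log_exp] at this
      exact this
    rw [EReal.le_div_iff_mul_le (by exact_mod_cast h1m) (by exact EReal.natCast_ne_top m)]
    refine le_trans (le_of_eq ?_) hlog
    push_cast
    rfl
  refine lt_of_lt_of_le ?_ (le_limsup_of_frequently_le' key.frequently)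
  exact_mod_cast hκ

/-- The barcode entropy is positive if there are exponentially many nondegenerate periodic
orbits. -/
theorem hbar_pos {M : ClosedSymplectic n} {H : P n → ℝ} (hH : SmoothFn M.Γ H)
    (h : ExpOrbits M H) (B : FloerBarcodes M) : 0 < hbar B H := by
  classical
  obtain ⟨δ, κ, hδ, hκ, m0, hm0⟩ := h
  have key : 0 < hbarEps B H (δ / 2) := by
    unfold hbarEps
    refine ent_pos (fun k => barCount B ((k : ℝ) • H) (δ / 2)) κ hκ m0 ?_
    intro m hm
    obtain ⟨S, hcard, hS⟩ := hm0 m hm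
    have hex : ∀ C ∈ S, ∃ j : ℕ, ENNReal.ofReal (δ / 2) < B.len ((m : ℝ) • H) C j := by
      intro C hC
      obtain ⟨g, hne, rfl, hgap, y, hy⟩ := hS C hC
      have hcount := B.count ((m : ℝ) • H) (smoothFn_smul hH _) g hne 2 y hy ⟨δ, hδ, hgap⟩
      have hnon : {j | B.len ((m : ℝ) • H) (ConjClasses.mk g) j ≠ 0}.Nonempty := by
        rw [← Set.encard_ne_zero, hcount]
        simp
      obtain ⟨j, hj⟩ := hnon
      refine ⟨j, ?_⟩
      rcases B.gap ((m : ℝ) • H) (smoothFn_smul hH _) g hne δ hδ hgap j with h3 | h3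
      · exact absurd h3 hj
      · refine lt_of_lt_of_le ?_ h3
        exact (ENNReal.ofReal_lt_ofReal_iff hδ).2 (by linarith)
    choose! jj hjj using hex
    have hinj : Set.InjOn (fun C : ConjClasses M.Γ => ((C, jj C) : ConjClasses M.Γ × ℕ))
        (S : Set _) := by
      intro C _ C' _ hCC
      exact (Prod.ext_iff.1 hCC).1
    have hle : ((S.card : ℕ) : ℕ∞) ≤ barCount B ((m : ℝ) • H) (δ / 2) := by
      unfold barCount
      rw [← Set.encard_coe_eq_coe_finsetCard, ← hinj.encard_image]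
      apply Set.encard_le_encard
      rintro x ⟨C, hC, rfl⟩
      exact hjj C hC
    calc ENNReal.ofReal (Real.exp (κ * m)) ≤ ENNReal.ofReal (S.card : ℝ) :=
          ENNReal.ofReal_le_ofReal hcard
      _ = ((S.card : ℕ) : ENNReal) := ENNReal.ofReal_natCast _
      _ = (((S.card : ℕ) : ℕ∞) : ENNReal) := by simp
      _ ≤ _ := by exact_mod_cast hle
  refine lt_of_lt_of_le key ?_
  unfold hbar
  exact le_iSup₂_of_le (δ / 2) (by linarith) le_rfl

/-- comparison of the growth rates -/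
theorem exp_compare (c μ : ℝ) (hc : 0 < c) (hμ : 0 < μ) : ∃ m0 : ℕ, 1 ≤ m0 ∧ ∀ m : ℕ, m0 ≤ m →
    Real.exp (μ / 4 * m) ≤ c * Real.exp (μ * m / 2) / m := by
  have h1 : Filter.Tendsto (fun m : ℕ => μ / 4 * (m : ℝ)) Filter.atTop Filter.atTop :=
    (tendsto_natCast_atTop_atTop (R := ℝ)).const_mul_atTop (by positivity)
  have h2 := (Real.tendsto_pow_mul_exp_neg_atTop_nhds_zero 1).comp h1
  have h3 : ∀ᶠ m : ℕ in Filter.atTop, μ / 4 * (m : ℝ) * Real.exp (-(μ / 4 * (m : ℝ))) <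
      μ / 4 * c := by
    have := h2.eventually_lt_const (show (0 : ℝ) < μ / 4 * c by positivity)
    filter_upwards [this] with m hm
    simpa using hm
  obtain ⟨m0, hm0⟩ := Filter.eventually_atTop.1 h3
  refine ⟨max m0 1, le_max_right _ _, ?_⟩
  intro m hm
  have h1m : 1 ≤ m := le_trans (le_max_right _ _) hm
  have hm' := hm0 m (le_trans (le_max_left _ _) hm)
  have hmpos : (0 : ℝ) < m := by exact_mod_cast h1m
  rw [le_div_iff₀ hmpos]
  have e1 : Real.exp (μ * m / 2) = Real.exp (μ / 4 * m) * Real.exp (μ / 4 * m) := by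
    rw [← Real.exp_add]; congr 1; ring
  have e2 : (m : ℝ) * Real.exp (-(μ / 4 * (m : ℝ))) < c := by
    have h4 : 0 < μ / 4 := by positivity
    nlinarith [hm', h4]
  have e3 : (m : ℝ) < c * Real.exp (μ / 4 * m) := by
    have := mul_lt_mul_of_pos_right e2 (Real.exp_pos (μ / 4 * m))
    rw [mul_assoc, ← Real.exp_add] at this
    simpa using this
  rw [e1]
  nlinarith [Real.exp_pos (μ / 4 * m)]

/-- the example has exponentially many nondegenerate periodic orbits -/
theorem exp_orbits (M : ClosedSymplectic 3) (hM : M.Γ = G0) (hGAP : GAPStmt) (hLIS : LISStmt)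
    (hCN2 : CN2Stmt) : ExpOrbits M Ham := by
  obtain ⟨Γ, h1, h2, h3, h4⟩ := M
  dsimp only at hM
  subst hM
  obtain ⟨δ, hδ, hgap⟩ := hGAP
  obtain ⟨c, hc, hcn⟩ := hCN2
  have hμ : 0 < mu0 := Pool.Agent.H73.mu0_pos
  obtain ⟨m0, hm01, hm0⟩ := exp_compare c mu0 hc hμ
  refine ⟨δ, mu0 / 4, hδ, by positivity, m0, ?_⟩
  intro m hm
  have h1m : 1 ≤ m := hm01.trans hm
  obtain ⟨S, hS, hcard⟩ := hcn m h1m
  refine ⟨S, (hm0 m hm).trans hcard, ?_⟩
  intro C hC
  obtain ⟨a, ha, h, rfl⟩ := hS C hC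
  have hne : (⟨dk m 0 a 0, h⟩ : G0) ≠ 1 := by
    intro he
    have h1 : dk m 0 a 0 = 1 := congrArg Subtype.val he
    have h2 : (dk m 0 a 0 (0 : P 3)).1 2 = ((1 : P 3 ≃ᵃ[ℝ] P 3) (0 : P 3)).1 2 := by rw [h1]
    rw [dk_apply] at h2
    simp [trn] at h2
    omega
  obtain ⟨y, hy⟩ := hLIS m a h1m ha
  exact ⟨⟨dk m 0 a 0, h⟩, hne, rfl, hgap m a h1m, y, hy⟩

end Pool.Agent.H25.BCE
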