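import Pool.Agent.H25.BCE.Stmts

set_option autoImplicit false

namespace Pool.Agent.H25.BCE

open scoped ContDiff Topology
open Pool.Agent.H73 (P V ex ey pb solA solG mu0 Gam lin)

theorem smooth_smul {H : P 3 → ℝ} (h : SmoothFn G0 H) (c : ℝ) : SmoothFn G0 (c • H) := by
  refine ⟨h.1.const_smul c, ?_⟩
  intro g hg x
  simp only [Pi.smul_apply, h.2 g hg x]

theorem FIN_thm (hSYM : SYMStmt) (hFRE : FREStmt) (hPRO : PROStmt) (hCOC : COCStmt)
    (hHAM : HAMStmt) (hCIN : CINStmt) (hGAP : GAPStmt) (hLIS : LISStmt) (hCN2 : CN2Stmt)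
    (hENT : ENTStmt) :
    ∃ (M : ClosedSymplectic 3) (H : P 3 → ℝ), SmoothFn M.Γ H ∧ CompletelyIntegrable M.Γ H ∧
      ∀ B : FloerBarcodes M, 0 < hbar B H := by
  classical
  refine ⟨⟨G0, hSYM, hFRE, hPRO, hCOC⟩, Ham, hHAM.1, hCIN, ?_⟩
  intro B
  obtain ⟨δ, hδ, hgap⟩ := hGAP
  obtain ⟨c, hc, hcn⟩ := hCN2
  have key : 0 < hbarEps B Ham (δ / 2) := by
    unfold hbarEps
    refine hENT (fun k => barCount B ((k : ℝ) • Ham) (δ / 2)) c hc ?_
    intro m hm
    obtain ⟨S, hS, hcard⟩ := hcn m hm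
    have hex : ∀ C ∈ S, ∃ j : ℕ, ENNReal.ofReal (δ / 2) < B.len ((m : ℝ) • Ham) C j := by
      intro C hC
      obtain ⟨a, ha, h, rfl⟩ := hS C hC
      have hne : (⟨dk m 0 a 0, h⟩ : G0) ≠ 1 := by
        intro he
        have h1 : dk m 0 a 0 = 1 := congrArg Subtype.val he
        have h2 : (dk m 0 a 0 (0 : P 3)).1 2 = ((1 : P 3 ≃ᵃ[ℝ] P 3) (0 : P 3)).1 2 := by rw [h1]
        rw [dk_apply] at h2
        simp [trn] at h2
        omega
      obtain ⟨y, hy⟩ := hLIS m a hm ha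
      have hcount := B.count ((m : ℝ) • Ham) (smooth_smul hHAM.1 _) ⟨dk m 0 a 0, h⟩ hne 2 y hy
        ⟨δ, hδ, hgap m a hm⟩
      have hnon : {j | B.len ((m : ℝ) • Ham) (ConjClasses.mk ⟨dk m 0 a 0, h⟩) j ≠ 0}.Nonempty := by
        rw [← Set.encard_ne_zero, hcount]
        simp
      obtain ⟨j, hj⟩ := hnon
      refine ⟨j, ?_⟩
      rcases B.gap ((m : ℝ) • Ham) (smooth_smul hHAM.1 _) ⟨dk m 0 a 0, h⟩ hne δ hδ
        (hgap m a hm) j with h3 | h3
      · exact absurd h3 hj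
      · refine lt_of_lt_of_le ?_ h3
        exact (ENNReal.ofReal_lt_ofReal_iff hδ).2 (by linarith)
    choose! jj hjj using hex
    have hinj : Set.InjOn (fun C : ConjClasses G0 => ((C, jj C) : ConjClasses G0 × ℕ)) (S : Set _) := by
      intro C _ C' _ hCC
      exact (Prod.ext_iff.1 hCC).1
    have hle : ((S.card : ℕ) : ℕ∞) ≤ barCount B ((m : ℝ) • Ham) (δ / 2) := by
      unfold barCount
      rw [← Set.encard_coe_eq_coe_finsetCard, ← hinj.encard_image]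
      apply Set.encard_le_encard
      rintro x ⟨C, hC, rfl⟩
      exact hjj C hC
    calc ENNReal.ofReal (c * Real.exp (mu0 * m / 2) / m) ≤ ENNReal.ofReal (S.card : ℝ) :=
          ENNReal.ofReal_le_ofReal hcard
      _ = ((S.card : ℕ) : ENNReal) := ENNReal.ofReal_natCast _
      _ = (((S.card : ℕ) : ℕ∞) : ENNReal) := by simp
      _ ≤ _ := by exact_mod_cast hle
  refine lt_of_lt_of_le key ?_
  unfold hbar
  exact le_iSup₂_of_le (δ / 2) (by linarith) le_rfl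

end Pool.Agent.H25.BCE
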