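import Pool.Agent.H25.BCE.Defs

/-!
The structure `FloerBarcodes` is consistent: it is never empty. (The number of orbits in a list
of all periodic orbits of a class is determined by the Hamiltonian and the class.)
-/

set_option autoImplicit false

namespace Pool.Agent.H25.BCE

open scoped ContDiff Topology
open Pool.Agent.H73 (P V ex ey pb)

variable {n : ℕ}

theorem om_add_left (u v w : P n) : om (u + v) w = om u w + om v w := by
  unfold om
  rw [← Finset.sum_add_distrib]
  refine Finset.sum_congr rfl fun i _ => ?_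
  simp only [Prod.fst_add, Prod.snd_add, Pi.add_apply]
  ring

theorem om_add_right (u v w : P n) : om u (v + w) = om u v + om u w := by
  unfold om
  rw [← Finset.sum_add_distrib]
  refine Finset.sum_congr rfl fun i _ => ?_
  simp only [Prod.fst_add, Prod.snd_add, Pi.add_apply]
  ring

theorem om_sub_left (u v w : P n) : om (u - v) w = om u w - om v w := by
  unfold om
  rw [← Finset.sum_sub_distrib]
  refine Finset.sum_congr rfl fun i _ => ?_
  simp only [Prod.fst_sub, Prod.snd_sub, Pi.sub_apply]
  ring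

theorem om_sub_right (u v w : P n) : om u (v - w) = om u v - om u w := by
  unfold om
  rw [← Finset.sum_sub_distrib]
  refine Finset.sum_congr rfl fun i _ => ?_
  simp only [Prod.fst_sub, Prod.snd_sub, Pi.sub_apply]
  ring

theorem om_antisymm (u v : P n) : om u v = -om v u := by
  unfold om
  rw [← Finset.sum_neg_distrib]
  refine Finset.sum_congr rfl fun i _ => ?_
  ring

theorem om_self (u : P n) : om u u = 0 := by
  have := om_antisymm u u
  linarith

theorem om_continuous {X : Type*} [TopologicalSpace X] {u v : X → P n} (hu : Continuous u)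
    (hv : Continuous v) : Continuous fun t => om (u t) (v t) := by
  unfold om
  fun_prop

theorem om_hasDerivAt {u v : ℝ → P n} {u' v' : P n} {t : ℝ} (hu : HasDerivAt u u' t)
    (hv : HasDerivAt v v' t) : HasDerivAt (fun s => om (u s) (v s)) (om u' (v t) + om (u t) v') t := by
  have h : ∀ i : Fin n, HasDerivAt (fun s => (u s).1 i * (v s).2 i - (u s).2 i * (v s).1 i)
      ((u'.1 i * (v t).2 i - u'.2 i * (v t).1 i) + ((u t).1 i * v'.2 i - (u t).2 i * v'.1 i)) t := by
    intro i
    have h1 := (hasDerivAt_pi.1 hu.fst) i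
    have h2 := (hasDerivAt_pi.1 hu.snd) i
    have h3 := (hasDerivAt_pi.1 hv.fst) i
    have h4 := (hasDerivAt_pi.1 hv.snd) i
    have := (h1.mul h4).sub (h2.mul h3)
    refine this.congr_deriv ?_
    ring
  have := HasDerivAt.fun_sum (fun i (_ : i ∈ Finset.univ) => h i)
  refine this.congr_deriv ?_
  unfold om
  rw [← Finset.sum_add_distrib]

theorem affine_apply (g : P n ≃ᵃ[ℝ] P n) (x : P n) : g x = g.linear x + g 0 := by
  have h := g.map_vadd (0 : P n) x
  simpa using h

theorem affine_hasDerivAt (g : P n ≃ᵃ[ℝ] P n) {x : ℝ → P n} {v : P n} {t : ℝ}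
    (h : HasDerivAt x v t) : HasDerivAt (fun s => g (x s)) (g.linear v) t := by
  have h1 : HasFDerivAt (fun y : P n => g y)
      (LinearMap.toContinuousLinearMap g.linear.toLinearMap) (x t) := by
    have h2 : (fun y : P n => g y) =
        fun y => LinearMap.toContinuousLinearMap g.linear.toLinearMap y + g 0 := by
      funext y
      exact affine_apply g y
    rw [h2]
    exact (LinearMap.toContinuousLinearMap g.linear.toLinearMap).hasFDerivAt.add_const _
  exact h1.comp_hasDerivAt t h

theorem fderiv_affine {F : P n → ℝ} (hF : ContDiff ℝ ∞ F) (g : P n ≃ᵃ[ℝ] P n) (x v : P n) :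
    fderiv ℝ (fun y => F (g y)) x v = fderiv ℝ F (g x) (g.linear v) := by
  have h1 : HasFDerivAt (fun y : P n => g y)
      (LinearMap.toContinuousLinearMap g.linear.toLinearMap) x := by
    have h2 : (fun y : P n => g y) =
        fun y => LinearMap.toContinuousLinearMap g.linear.toLinearMap y + g 0 := by
      funext y
      exact affine_apply g y
    rw [h2]
    exact (LinearMap.toContinuousLinearMap g.linear.toLinearMap).hasFDerivAt.add_const _
  have h3 : HasFDerivAt F (fderiv ℝ F (g x)) (g x) :=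
    (hF.differentiable (by simp) _).hasFDerivAt
  have h4 := (h3.comp x h1).fderiv
  have h5 : (fun y => F (g y)) = F ∘ fun y : P n => g y := rfl
  rw [h5, h4]
  rfl

/-- transport of a periodic orbit by a deck transformation -/
theorem PeriodicOrbit.conj {M : ClosedSymplectic n} {H : P n → ℝ} (hH : SmoothFn M.Γ H)
    {g k : P n ≃ᵃ[ℝ] P n} (hk : k ∈ M.Γ) {x : ℝ → P n} (hx : PeriodicOrbit H g x) :
    PeriodicOrbit H (k * g * k⁻¹) (fun t => k (x t)) := by
  refine ⟨fun t => ?_, fun t => ?_⟩
  · obtain ⟨v, hv, hw⟩ := hx.ham t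
    refine ⟨k.linear v, affine_hasDerivAt k hv, fun w => ?_⟩
    have h1 : w = k.linear (k.linear.symm w) := (k.linear.apply_symm_apply w).symm
    have h2 : (fun y => H (k y)) = H := funext fun y => hH.2 k hk y
    have h3 := fderiv_affine hH.1 k (x t) (k.linear.symm w)
    rw [h2] at h3
    rw [h1, M.symp k hk, hw, h3]
  · show k (x (t + 1)) = (k * g * k⁻¹) (k (x t))
    rw [hx.per t]
    have h4 : (k * g * k⁻¹) (k (x t)) = (k * g * k⁻¹ * k) (x t) := rfl
    have h5 : k * g * k⁻¹ * k = k * g := by group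
    rw [h4, h5]
    rfl

theorem orbit_continuous {H : P n → ℝ} {g : P n ≃ᵃ[ℝ] P n} {x : ℝ → P n}
    (hx : PeriodicOrbit H g x) : Continuous x := by
  rw [continuous_iff_continuousAt]
  intro t
  obtain ⟨v, hv, _⟩ := hx.ham t
  exact hv.continuousAt

theorem om_nondeg {u v : P n} (h : ∀ w, om u w = om v w) : u = v := by
  refine Prod.ext ?_ ?_
  · funext i
    have := h (0, Pi.single i 1)
    simpa [om, Pi.single_apply] using this
  · funext i
    have := h (Pi.single i 1, 0)
    simpa [om, Pi.single_apply] using this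

/-- the Hamiltonian vector field -/
noncomputable def XHam (H : P n → ℝ) (x : P n) : P n :=
  (fun i => fderiv ℝ H x (ey i), fun i => -fderiv ℝ H x (ex i))

theorem orbit_deriv {H : P n → ℝ} {g : P n ≃ᵃ[ℝ] P n} {x : ℝ → P n}
    (hx : PeriodicOrbit H g x) (t : ℝ) : HasDerivAt x (XHam H (x t)) t := by
  obtain ⟨v, hv, hw⟩ := hx.ham t
  have : v = XHam H (x t) := by
    refine Prod.ext ?_ ?_
    · funext i
      have := hw (ey i)
      rw [show (XHam H (x t)).1 i = fderiv ℝ H (x t) (ey i) from rfl, ← this]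
      simp [om, ey, Pi.single_apply]
    · funext i
      have := hw (ex i)
      rw [show (XHam H (x t)).2 i = -fderiv ℝ H (x t) (ex i) from rfl, ← this]
      simp [om, ex, Pi.single_apply]
  rw [← this]
  exact hv

theorem XHam_continuous {H : P n → ℝ} (hH : ContDiff ℝ ∞ H) : Continuous (XHam H) := by
  have h : Continuous (fderiv ℝ H) := hH.continuous_fderiv (by simp)
  unfold XHam
  refine Continuous.prodMk ?_ ?_
  · exact continuous_pi fun i => h.clm_apply continuous_const
  · exact continuous_pi fun i => (h.clm_apply continuous_const).neg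

theorem om_XHam (H : P n → ℝ) (x w : P n) : om (XHam H x) w = fderiv ℝ H x w := by
  have e : w = ∑ i, (w.1 i • (ex i : P n) + w.2 i • (ey i : P n)) := by
    refine Prod.ext ?_ ?_
    · funext k
      simp [Prod.fst_sum, ex, ey, Finset.sum_apply, Pi.single_apply]
    · funext k
      simp [Prod.snd_sum, ex, ey, Finset.sum_apply, Pi.single_apply]
  have h2 : fderiv ℝ H x w = ∑ i, (w.1 i * fderiv ℝ H x (ex i) + w.2 i * fderiv ℝ H x (ey i)) := by
    conv_lhs => rw [e]
    simp [map_sum]
  rw [h2]
  unfold om XHam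
  refine Finset.sum_congr rfl fun i _ => ?_
  simp only
  ring

/-- conservation of energy -/
theorem energy {H : P n → ℝ} (hH : ContDiff ℝ ∞ H) {g : P n ≃ᵃ[ℝ] P n} {x : ℝ → P n}
    (hx : PeriodicOrbit H g x) (s t : ℝ) : H (x s) = H (x t) := by
  have hd : ∀ t, HasDerivAt (fun t => H (x t)) 0 t := by
    intro t
    have h1 := ((hH.differentiable (by simp) (x t)).hasFDerivAt).comp_hasDerivAt t (orbit_deriv hx t)
    refine h1.congr_deriv ?_
    rw [← om_XHam, om_self]
  exact is_const_of_deriv_eq_zero (fun t => (hd t).differentiableAt) (fun t => (hd t).deriv) s t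

theorem shift_action {M : ClosedSymplectic n} {H : P n → ℝ} (hH : SmoothFn M.Γ H)
    {g : P n ≃ᵃ[ℝ] P n} (hg : g ∈ M.Γ) {x : ℝ → P n} (hx : PeriodicOrbit H g x) (τ : ℝ) :
    actionDiff H x (fun t => x (t + τ)) = 0 := by
  have hxc := orbit_continuous hx
  have hX := XHam_continuous hH.1
  have hder := orbit_deriv hx
  have hder2 : ∀ t, HasDerivAt (fun t => x (t + τ)) (XHam H (x (t + τ))) t := by
    intro t
    exact (hder (t + τ)).comp_add_const t τ
  set w : ℝ → ℝ := fun t => om (x t) (XHam H (x t)) with hw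
  have hwc : Continuous w := om_continuous hxc (hX.comp hxc)
  unfold actionDiff
  have h1 : ∀ t, H (x t) - H (x (t + τ)) = 0 := by
    intro t
    rw [energy hH.1 hx t (t + τ), sub_self]
  simp only [h1]
  rw [intervalIntegral.integral_zero, zero_add]
  have h2 : ∀ t, om (x t - x (t + τ)) (deriv x t + deriv (fun t => x (t + τ)) t) =
      (w t - w (t + τ)) + (om (XHam H (x t)) (x (t + τ)) + om (x t) (XHam H (x (t + τ)))) := by
    intro t
    rw [(hder t).deriv, (hder2 t).deriv]
    simp only [hw, om_sub_left, om_add_right]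
    rw [om_antisymm (XHam H (x t)) (x (t + τ))]
    ring
  simp only [h2]
  have hc1 : Continuous fun t => om (XHam H (x t)) (x (t + τ)) + om (x t) (XHam H (x (t + τ))) :=
    (om_continuous (hX.comp hxc) (hxc.comp (continuous_add_const τ))).add
      (om_continuous hxc (hX.comp (hxc.comp (continuous_add_const τ))))
  have hw2 : Continuous fun t => w (t + τ) := hwc.comp (continuous_add_const τ)
  have hsub : Continuous fun t => w t - w (t + τ) := hwc.sub hw2
  rw [intervalIntegral.integral_add (hsub.intervalIntegrable _ _)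
    (hc1.intervalIntegrable _ _),
    intervalIntegral.integral_sub (hwc.intervalIntegrable _ _) (hw2.intervalIntegrable _ _)]
  have h3 : (∫ t in (0 : ℝ)..1, (om (XHam H (x t)) (x (t + τ)) + om (x t) (XHam H (x (t + τ))))) =
      om (x 1) (x (1 + τ)) - om (x 0) (x (0 + τ)) := by
    refine intervalIntegral.integral_eq_sub_of_hasDerivAt (f := fun t => om (x t) (x (t + τ))) ?_
      (hc1.intervalIntegrable _ _)
    intro t _
    exact om_hasDerivAt (hder t) (hder2 t)
  rw [h3]
  have h4 : (∫ t in (0 : ℝ)..1, w (t + τ)) = ∫ t in τ..(1 + τ), w t := by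
    have := intervalIntegral.integral_comp_add_right (a := 0) (b := 1) w τ
    rw [this, zero_add]
  rw [h4]
  -- w (t + 1) = w t + om b (L x')
  set b : P n := g 0 with hb
  have hwp : ∀ t, w (t + 1) = w t + om b (g.linear (XHam H (x t))) := by
    intro t
    have h5 : HasDerivAt (fun s => x (s + 1)) (XHam H (x (t + 1))) t :=
      (hder (t + 1)).comp_add_const t 1
    have h6 : (fun s => x (s + 1)) = fun s => g (x s) := funext hx.per
    rw [h6] at h5
    have h7 := (affine_hasDerivAt g (hder t)).unique h5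
    simp only [hw]
    rw [← h7, hx.per t, affine_apply g (x t), om_add_left, M.symp g hg]
  have h8 : (∫ t in (0 : ℝ)..1, w t) - ∫ t in τ..(1 + τ), w t =
      (∫ t in (0 : ℝ)..τ, w t) - ∫ t in (1 : ℝ)..(1 + τ), w t := by
    have e1 := intervalIntegral.integral_add_adjacent_intervals
      (hwc.intervalIntegrable 0 τ) (hwc.intervalIntegrable (μ := MeasureTheory.volume) τ (1 + τ))
    have e2 := intervalIntegral.integral_add_adjacent_intervals
      (hwc.intervalIntegrable 0 1) (hwc.intervalIntegrable (μ := MeasureTheory.volume) 1 (1 + τ))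
    linarith
  rw [h8]
  have h9 : (∫ t in (1 : ℝ)..(1 + τ), w t) = ∫ t in (0 : ℝ)..τ, w (t + 1) := by
    have := intervalIntegral.integral_comp_add_right (a := 0) (b := τ) w 1
    rw [this, zero_add, add_comm τ 1]
  have hc2 : Continuous fun t => om b (g.linear (XHam H (x t))) := by
    refine om_continuous continuous_const ?_
    exact (LinearMap.toContinuousLinearMap g.linear.toLinearMap).continuous.comp (hX.comp hxc)
  have h10 : (∫ t in (0 : ℝ)..τ, w (t + 1)) = (∫ t in (0 : ℝ)..τ, w t) +
      ∫ t in (0 : ℝ)..τ, om b (g.linear (XHam H (x t))) := by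
    simp only [hwp]
    rw [intervalIntegral.integral_add (hwc.intervalIntegrable _ _) (hc2.intervalIntegrable _ _)]
  have h11 : (∫ t in (0 : ℝ)..τ, om b (g.linear (XHam H (x t)))) =
      om b (g.linear (x τ)) - om b (g.linear (x 0)) := by
    refine intervalIntegral.integral_eq_sub_of_hasDerivAt (f := fun t => om b (g.linear (x t))) ?_
      (hc2.intervalIntegrable _ _)
    intro t _
    have e1 : HasDerivAt (fun s => g.linear (x s)) (g.linear (XHam H (x t))) t := by
      have := (affine_hasDerivAt g (hder t)).sub_const b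
      refine this.congr_of_eventuallyEq ?_
      filter_upwards with s
      show g.linear (x s) = g (x s) - b
      rw [affine_apply g (x s), add_sub_cancel_right]
    have := om_hasDerivAt (hasDerivAt_const t b) e1
    refine this.congr_deriv ?_
    have : om 0 (g.linear (x t)) = 0 := by simp [om]
    rw [this, zero_add]
  rw [h9, h10, h11]
  have h12 : x 1 = g.linear (x 0) + b := by
    have := hx.per 0
    rw [zero_add] at this
    rw [this, affine_apply g (x 0)]
  have h13 : x (1 + τ) = g.linear (x τ) + b := by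
    have := hx.per τ
    rw [add_comm τ 1] at this
    rw [this, affine_apply g (x τ)]
  rw [h12, h13, zero_add]
  simp only [om_add_left, om_add_right, M.symp g hg, om_self]
  rw [om_antisymm (g.linear (x 0)) b]
  ring

/-- the number of orbits is determined by the Hamiltonian and the class -/
theorem count_le {M : ClosedSymplectic n} {H : P n → ℝ} (hH : SmoothFn M.Γ H)
    {g k : P n ≃ᵃ[ℝ] P n} (hg : g ∈ M.Γ) (hk : k ∈ M.Γ) {N N' : ℕ} {y : Fin N → ℝ → P n}
    {y' : Fin N' → ℝ → P n} (hy : OrbitList M.Γ H g N y)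
    (hy' : OrbitList M.Γ H (k * g * k⁻¹) N' y') : N ≤ N' := by
  have h1 : ∀ i : Fin N, ∃ i' : Fin N', ∃ h ∈ M.Γ, h * (k * g * k⁻¹) = (k * g * k⁻¹) * h ∧
      ∃ τ : ℝ, ∀ t, k (y i t) = h (y' i' (t + τ)) := fun i =>
    hy'.all (fun t => k (y i t)) ((hy.orb i).conj hH hk)
  choose f h hh hc τ hf using h1
  have hinj : Function.Injective f := by
    intro i j hij
    by_contra hne
    set c : P n ≃ᵃ[ℝ] P n := k⁻¹ * h i * (h j)⁻¹ * k with hcdef
    have hcm : c ∈ M.Γ := M.Γ.mul_mem (M.Γ.mul_mem (M.Γ.mul_mem (M.Γ.inv_mem hk) (hh i))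
      (M.Γ.inv_mem (hh j))) hk
    -- c commutes with g
    have hcg : c * g = g * c := by
      have e1 : (h j)⁻¹ * (k * g * k⁻¹) = (k * g * k⁻¹) * (h j)⁻¹ := by
        have := hc j
        have h2 : (h j)⁻¹ * (h j * (k * g * k⁻¹)) * (h j)⁻¹ =
            (h j)⁻¹ * ((k * g * k⁻¹) * h j) * (h j)⁻¹ := by rw [this]
        have h3 : (h j)⁻¹ * (h j * (k * g * k⁻¹)) * (h j)⁻¹ = (k * g * k⁻¹) * (h j)⁻¹ := by group
        have h4 : (h j)⁻¹ * ((k * g * k⁻¹) * h j) * (h j)⁻¹ = (h j)⁻¹ * (k * g * k⁻¹) := by group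
        rw [h3, h4] at h2
        exact h2.symm
      calc c * g = k⁻¹ * (h i * ((h j)⁻¹ * (k * g * k⁻¹))) * k := by rw [hcdef]; group
        _ = k⁻¹ * (h i * ((k * g * k⁻¹) * (h j)⁻¹)) * k := by rw [e1]
        _ = k⁻¹ * ((h i * (k * g * k⁻¹)) * (h j)⁻¹) * k := by group
        _ = k⁻¹ * (((k * g * k⁻¹) * h i) * (h j)⁻¹) * k := by rw [hc i]
        _ = g * c := by rw [hcdef]; group
    -- y i t = c (y j (t + σ))
    have hcy : ∀ t, c (y j t) = y i (t + (τ j - τ i)) := by
      intro t
      have h2 : k (y j t) = h j (y' (f j) (t + τ j)) := hf j t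
      have h3 : k (y i (t + (τ j - τ i))) = h i (y' (f i) (t + (τ j - τ i) + τ i)) := hf i _
      have e : t + (τ j - τ i) + τ i = t + τ j := by ring
      rw [e, hij] at h3
      have h4 : y' (f j) (t + τ j) = (h j)⁻¹ (k (y j t)) := by
        rw [h2]
        have : (h j)⁻¹ (h j (y' (f j) (t + τ j))) = ((h j)⁻¹ * h j) (y' (f j) (t + τ j)) := rfl
        rw [this]
        simp
      have h5 : y i (t + (τ j - τ i)) = k⁻¹ (k (y i (t + (τ j - τ i)))) := by
        have : k⁻¹ (k (y i (t + (τ j - τ i)))) = (k⁻¹ * k) (y i (t + (τ j - τ i))) := rfl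
        rw [this]
        simp
      rw [h5, h3, h4]
      rfl
    have h6 := hy.dist i j hne c hcm hcg
    apply h6
    have h7 : (fun t => c (y j t)) = fun t => y i (t + (τ j - τ i)) := funext hcy
    rw [h7]
    exact shift_action hH hg (hy.orb i) _
  simpa using Fintype.card_le_of_injective f hinj

theorem floer_nonempty (M : ClosedSymplectic n) : Nonempty (FloerBarcodes M) := by
  classical
  let Q : (P n → ℝ) → ConjClasses M.Γ → ℕ → Prop := fun H c N =>
    SmoothFn M.Γ H ∧ ∃ g : M.Γ, ConjClasses.mk g = c ∧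
      ∃ y : Fin N → ℝ → P n, OrbitList M.Γ H (g : P n ≃ᵃ[ℝ] P n) N y
  have huniq : ∀ H c N N', Q H c N → Q H c N' → N = N' := by
    rintro H c N N' ⟨hH, g, hg, y, hy⟩ ⟨_, g', hg', y', hy'⟩
    have hconj : IsConj g g' := by
      rw [← ConjClasses.mk_eq_mk_iff_isConj, hg, hg']
    obtain ⟨k, hk⟩ := isConj_iff.1 hconj
    have e1 : (g' : P n ≃ᵃ[ℝ] P n) = (k : P n ≃ᵃ[ℝ] P n) * g * (k : P n ≃ᵃ[ℝ] P n)⁻¹ := by
      rw [← hk]; rfl
    have e2 : (g : P n ≃ᵃ[ℝ] P n) = (k : P n ≃ᵃ[ℝ] P n)⁻¹ * g' * ((k : P n ≃ᵃ[ℝ] P n)⁻¹)⁻¹ := by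
      rw [e1]; group
    apply le_antisymm
    · rw [e1] at hy'
      exact count_le hH g.2 k.2 hy hy'
    · rw [e2] at hy
      exact count_le hH g'.2 (M.Γ.inv_mem k.2) hy' hy
  let cnt : (P n → ℝ) → ConjClasses M.Γ → ℕ := fun H c => if h : ∃ N, Q H c N then h.choose else 0
  refine ⟨⟨fun H c j => if j < cnt H c then ⊤ else 0, ?_, ?_⟩⟩
  · intro H _ g _ δ _ _ j
    by_cases h : j < cnt H (ConjClasses.mk g)
    · right; rw [if_pos h]; exact le_top
    · left; rw [if_neg h]
  · intro H hH g _ N y hy _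
    have hex : ∃ N, Q H (ConjClasses.mk g) N := ⟨N, hH, g, rfl, y, hy⟩
    have hcnt : cnt H (ConjClasses.mk g) = N := by
      have e : cnt H (ConjClasses.mk g) = hex.choose := by
        simp only [cnt]
        rw [dif_pos hex]
      rw [e]
      exact huniq H _ _ _ hex.choose_spec ⟨hH, g, rfl, y, hy⟩
    have hset : {j : ℕ | (if j < cnt H (ConjClasses.mk g) then (⊤ : ENNReal) else 0) ≠ 0} =
        ((Finset.range N : Finset ℕ) : Set ℕ) := by
      ext j
      rw [hcnt]
      by_cases h : j < N
      · simp [h]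
      · simp [h]
    rw [hset, Set.encard_coe_eq_coe_finsetCard, Finset.card_range]

end Pool.Agent.H25.BCE
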